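import Pool.Agent.Lib.DK.Base

/-!
# Theorem DK: `O` is a Dedekind domain (complete; no task)
-/

set_option autoImplicit false

open scoped Pointwise nonZeroDivisors

noncomputable section

namespace Pool.Agent.DK

open Pool.Agent.MuZ Pool.Agent.FW NumberField IsDedekindDomain
open Pool.Agent.DI (io ofC io_inj exists_io io_ofC ofC_io VP MP UP TP ex sqr sqr_sq kap)

variable {k : ℕ}

/-- `n² ∣ D a²`, `D` squarefree: `n ∣ a`. -/
theorem dvd_of_sqf {D : ℕ} (hD : Squarefree D) {n a : ℕ} (h : n ^ 2 ∣ D * a ^ 2) : n ∣ a := by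
  rcases Nat.eq_zero_or_pos a with rfl | ha
  · exact dvd_zero n
  have hg : 0 < n.gcd a := Nat.gcd_pos_of_pos_right _ ha
  obtain ⟨n', a', hc, hn, ha'⟩ := Nat.exists_coprime n a
  have h1 : n' ^ 2 ∣ D * a' ^ 2 := by
    have h2 : (n.gcd a) ^ 2 * n' ^ 2 ∣ (n.gcd a) ^ 2 * (D * a' ^ 2) := by
      have e1 : (n.gcd a) ^ 2 * n' ^ 2 = n ^ 2 := by
        conv_rhs => rw [hn]
        ring
      have e2 : (n.gcd a) ^ 2 * (D * a' ^ 2) = D * a ^ 2 := by
        conv_rhs => rw [ha']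
        ring
      rw [e1, e2]
      exact h
    exact Nat.dvd_of_mul_dvd_mul_left (by positivity) h2
  have h3 : n' ^ 2 ∣ D := (Nat.Coprime.pow 2 2 hc).dvd_of_dvd_mul_right h1
  have h4 : IsUnit n' := hD n' (by rwa [← sq])
  rw [Nat.isUnit_iff] at h4
  rw [h4, one_mul] at hn
  rw [hn]
  exact Nat.gcd_dvd_right n a

/-- An integral element of `K` is in `O`. -/
theorem mem_O [SqK k] (v : OO k) (n : ℕ) (hn : 0 < n) (hi : IsIntegral ℤ (toC v / n : ℂ)) :
    ∃ u : OO k, v = n * u := by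
  have hn' : (n : ℂ) ≠ 0 := by exact_mod_cast hn.ne'
  set z : ℂ := toC v / n with hz
  have hc : IsIntegral ℤ ((starRingEnd ℂ) z) := hi.map (RingHom.toIntAlgHom (starRingEnd ℂ))
  have hzc : (starRingEnd ℂ) z = toC (cjO v) / n := by
    rw [hz, map_div₀, conj_toC, map_natCast]
  -- the trace
  have h1 : IsIntegral ℤ (((2 * v.re + v.im : ℚ) / n : ℚ) : ℂ) := by
    have e : (((2 * v.re + v.im : ℚ) / n : ℚ) : ℂ) = z + (starRingEnd ℂ) z := by
      rw [hzc, hz, ← add_div, ← toC_add]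
      have : v + cjO v = ((2 * v.re + v.im : ℤ) : OO k) := by
        apply ext'
        · rw [QuadraticAlgebra.re_add, re_int]
          simp only [cjO]
          ring
        · rw [QuadraticAlgebra.im_add, im_int]
          simp only [cjO]
          ring
      rw [this, toC_int]
      push_cast
      ring
    rw [e]
    exact hi.add hc
  -- the norm
  have h2 : IsIntegral ℤ (((Nm v : ℚ) / n ^ 2 : ℚ) : ℂ) := by
    have e : (((Nm v : ℚ) / n ^ 2 : ℚ) : ℂ) = z * (starRingEnd ℂ) z := by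
      rw [hzc, hz]
      have := toC_Nm v
      push_cast
      rw [this]
      field_simp
    rw [e]
    exact hi.mul hc
  have hQ : ∀ r : ℚ, IsIntegral ℤ ((r : ℚ) : ℂ) → ∃ m : ℤ, (m : ℚ) = r := by
    intro r hr
    have h3 : IsIntegral ℤ r := by
      have h4 : IsIntegral ℤ (algebraMap ℚ ℂ r) := by simpa using hr
      exact (isIntegral_algebraMap_iff (algebraMap ℚ ℂ).injective).1 h4
    obtain ⟨m, hm⟩ := IsIntegrallyClosed.isIntegral_iff.1 h3
    exact ⟨m, by simpa using hm⟩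
  obtain ⟨t, ht⟩ := hQ _ h1
  obtain ⟨m, hm⟩ := hQ _ h2
  have hnq : (n : ℚ) ≠ 0 := by exact_mod_cast hn.ne'
  have e1 : 2 * v.re + v.im = n * t := by
    have : (2 * v.re + v.im : ℚ) = n * t := by
      rw [ht]
      field_simp
    exact_mod_cast this
  have e2 : Nm v = n ^ 2 * m := by
    have : (Nm v : ℚ) = n ^ 2 * m := by
      rw [hm]
      field_simp
    exact_mod_cast this
  have e3 := four_Nm v
  rw [e1, e2] at e3
  have hD := Dk_cast (k := k)
  rw [← hD] at e3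
  have e4 : (n : ℤ) ^ 2 * (4 * m - t ^ 2) = (Dk k : ℤ) * v.im ^ 2 := by linear_combination e3
  have hsq : Squarefree (Dk k) := SqK.sqf
  have h5 : n ∣ v.im.natAbs := by
    apply dvd_of_sqf hsq
    have h6 : (n : ℤ) ^ 2 ∣ (Dk k : ℤ) * v.im ^ 2 := ⟨_, e4.symm⟩
    have h7 := Int.natAbs_dvd_natAbs.2 h6
    rwa [Int.natAbs_mul, Int.natAbs_pow, Int.natAbs_pow, Int.natAbs_natCast, Int.natAbs_natCast] at h7
  obtain ⟨s, hs⟩ : (n : ℤ) ∣ v.im := Int.natCast_dvd.2 h5
  have hnz : (n : ℤ) ≠ 0 := by exact_mod_cast hn.ne'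
  have e5 : 4 * m - t ^ 2 = (Dk k : ℤ) * s ^ 2 := by
    have : (n : ℤ) ^ 2 * (4 * m - t ^ 2) = (n : ℤ) ^ 2 * ((Dk k : ℤ) * s ^ 2) := by
      rw [e4, hs]
      ring
    exact mul_left_cancel₀ (pow_ne_zero 2 hnz) this
  have e6 : (2 : ℤ) ∣ t - s := by
    have h8 : (2 : ℤ) ∣ t ^ 2 - s ^ 2 := by
      rw [hD] at e5
      exact ⟨2 * m - 4 * k * s ^ 2, by linear_combination -e5⟩
    have h9 : t ^ 2 - s ^ 2 = (t - s) * (t - s) + 2 * ((t - s) * s) := by ring
    rw [h9] at h8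
    have h10 : (2 : ℤ) ∣ (t - s) * (t - s) := (Int.dvd_iff_dvd_of_dvd_add h8).2 ⟨_, rfl⟩
    rcases Int.prime_two.dvd_or_dvd h10 with h | h <;> exact h
  obtain ⟨r, hr⟩ := e6
  refine ⟨⟨r, s⟩, ext' ?_ ?_⟩
  · rw [re_mul, re_nat, im_nat]
    rw [hs] at e1
    have : 2 * v.re = 2 * (n * r) := by
      linear_combination e1 + (n : ℤ) * hr
    linarith
  · rw [im_mul, re_nat, im_nat, hs]
    ring

instance [SqK k] : IsIntegrallyClosed (OO k) := by
  rw [isIntegrallyClosed_iff (FractionRing (OO k))]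
  intro x hx
  -- the embedding of the fraction field
  let φ : FractionRing (OO k) →+* ℂ := IsFractionRing.lift (A := OO k) (g := toCh k) toC_inj
  have hφ : ∀ v : OO k, φ (algebraMap (OO k) (FractionRing (OO k)) v) = toC v := fun v =>
    IsFractionRing.lift_algebraMap (A := OO k) (g := toCh k) toC_inj v
  let _ : Algebra (OO k) ℂ := (toCh k).toAlgebra
  have hx1 : IsIntegral (OO k) (φ x) := by
    obtain ⟨p, hp, hpx⟩ := hx
    refine ⟨p, hp, ?_⟩
    have h1 := congrArg φ hpx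
    rw [map_zero, Polynomial.hom_eval₂] at h1
    have h2 : φ.comp (algebraMap (OO k) (FractionRing (OO k))) = algebraMap (OO k) ℂ :=
      RingHom.ext fun v => hφ v
    rwa [h2] at h1
  have hφx : IsIntegral ℤ (φ x) := isIntegral_trans (R := ℤ) (φ x) hx1
  obtain ⟨v, d, hd, hvd⟩ := IsFractionRing.div_surjective (A := OO k) x
  have hd0 : d ≠ 0 := nonZeroDivisors.ne_zero hd
  have hN := Nm_pos hd0
  have hN1 : ((Nm d).toNat : ℤ) = Nm d := Int.toNat_of_nonneg (Nm_nonneg d)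
  have hcd : toC (cjO d) ≠ 0 := by
    intro h0
    have h1 : cjO d = 0 := toC_eq_zero.1 h0
    apply hd0
    rw [← cjO_cjO d, h1, cjO_zero]
  have e : φ x = toC (v * cjO d) / ((Nm d).toNat : ℕ) := by
    rw [← hvd, map_div₀, hφ, hφ, toC_mul]
    have h2 : (((Nm d).toNat : ℕ) : ℂ) = toC d * toC (cjO d) := by
      rw [← toC_Nm, ← hN1]
      rw [Int.cast_natCast, Int.toNat_natCast]
    rw [h2]
    have h3 : toC d ≠ 0 := toC_ne hd0
    field_simp
  rw [e] at hφx
  obtain ⟨u, hu⟩ := mem_O _ _ (by omega) hφx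
  refine ⟨u, φ.injective ?_⟩
  rw [hφ, e, hu, toC_mul, toC_nat]
  have h4 : (((Nm d).toNat : ℕ) : ℂ) ≠ 0 := by
    have : (Nm d).toNat ≠ 0 := by omega
    exact_mod_cast this
  field_simp

instance [SqK k] : IsDedekindDomain (OO k) where

theorem s_O1 : S_O1 := fun _ _ => inferInstance

instance [SqK k] : Ring.HasFiniteQuotients (OO k) := inferInstance

end Pool.Agent.DK
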