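import Pool.Agent.Lib.DK.Iface
import Pool.Agent.Lib.DI.Val

/-!
# Theorem DK: elementary facts (complete; no task)

The ring `O`, the embeddings, the lattices `Lam b`, `Tor`, `GK`.
-/

set_option autoImplicit false

open scoped Pointwise

noncomputable section

namespace Pool.Agent.DK

open Pool.Agent.MuZ Pool.Agent.FW NumberField IsDedekindDomain
open Pool.Agent.DI (io ofC io_inj exists_io io_ofC ofC_io VP MP UP TP ex sqr sqr_sq kap)

variable {k : ℕ}

/-! ## The ring `O` -/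

theorem ext' {a b : OO k} (h1 : a.re = b.re) (h2 : a.im = b.im) : a = b := QuadraticAlgebra.ext h1 h2

theorem re_mul (v u : OO k) : (v * u).re = v.re * u.re - 2 * k * v.im * u.im := by
  rw [QuadraticAlgebra.re_mul]
  ring

theorem im_mul (v u : OO k) : (v * u).im = v.re * u.im + v.im * u.re + v.im * u.im := by
  rw [QuadraticAlgebra.im_mul]
  ring

theorem re_nat (n : ℕ) : ((n : OO k)).re = n := by simp
theorem im_nat (n : ℕ) : ((n : OO k)).im = 0 := by simp
theorem re_int (n : ℤ) : ((n : OO k)).re = n := by simp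
theorem im_int (n : ℤ) : ((n : OO k)).im = 0 := by simp

theorem re_one : (1 : OO k).re = 1 := QuadraticAlgebra.re_one

theorem im_one : (1 : OO k).im = 0 := QuadraticAlgebra.im_one

theorem Nm_mul (v u : OO k) : Nm (v * u) = Nm v * Nm u := by
  unfold Nm
  rw [re_mul, im_mul]
  ring

theorem Nm_one : Nm (1 : OO k) = 1 := by
  simp only [Nm, re_one, im_one]
  ring

theorem Nm_zero : Nm (0 : OO k) = 0 := by simp [Nm]

theorem Nm_nat (n : ℕ) : Nm (n : OO k) = (n : ℤ) ^ 2 := by simp [Nm]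

theorem Nm_int (n : ℤ) : Nm (n : OO k) = n ^ 2 := by simp [Nm]

theorem Nm_neg (v : OO k) : Nm (-v) = Nm v := by
  simp only [Nm, QuadraticAlgebra.re_neg, QuadraticAlgebra.im_neg]
  ring

theorem four_Nm (v : OO k) : 4 * Nm v = (2 * v.re + v.im) ^ 2 + (8 * k - 1) * v.im ^ 2 := by
  unfold Nm
  ring

theorem hk [h : SqK k] : 0 < k := h.pos

theorem hk1 [h : SqK k] : (1 : ℤ) ≤ k := by exact_mod_cast h.pos

theorem Dk_cast [h : SqK k] : ((Dk k : ℕ) : ℤ) = 8 * k - 1 := by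
  have := h.pos
  unfold Dk
  omega

theorem Dk_castR [h : SqK k] : ((Dk k : ℕ) : ℝ) = 8 * k - 1 := by
  have := Dk_cast (k := k)
  exact_mod_cast this

theorem Nm_nonneg [SqK k] (v : OO k) : 0 ≤ Nm v := by
  have := four_Nm v
  have h1 := hk1 (k := k)
  nlinarith [sq_nonneg (2 * v.re + v.im), sq_nonneg v.im, mul_nonneg (sub_nonneg.2 h1) (sq_nonneg v.im)]

theorem Nm_eq_zero [SqK k] {v : OO k} (h : Nm v = 0) : v = 0 := by
  have h1 := four_Nm v
  have hk := hk1 (k := k)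
  rw [h] at h1
  have h2 : v.im ^ 2 = 0 := by
    nlinarith [sq_nonneg (2 * v.re + v.im), sq_nonneg v.im, mul_nonneg (sub_nonneg.2 hk) (sq_nonneg v.im)]
  have h3 : v.im = 0 := by simpa using h2
  rw [h3] at h1
  have h4 : v.re ^ 2 = 0 := by nlinarith
  exact ext' (by simpa using h4) h3

theorem Nm_pos [SqK k] {v : OO k} (h : v ≠ 0) : 0 < Nm v :=
  lt_of_le_of_ne (Nm_nonneg v) fun h' => h (Nm_eq_zero h'.symm)

theorem mul_cjO (v : OO k) : v * cjO v = (Nm v : OO k) := by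
  apply ext'
  · rw [re_mul, re_int]
    simp only [cjO, Nm]
    ring
  · rw [im_mul, im_int]
    simp only [cjO]
    ring

theorem cjO_cjO (v : OO k) : cjO (cjO v) = v := by
  apply ext' <;> simp [cjO]

theorem cjO_mul (v u : OO k) : cjO (v * u) = cjO v * cjO u := by
  apply ext'
  · simp only [cjO, re_mul, im_mul]
    ring
  · simp only [cjO, re_mul, im_mul]
    ring

theorem cjO_add (v u : OO k) : cjO (v + u) = cjO v + cjO u := by
  apply ext'
  · simp only [cjO, QuadraticAlgebra.re_add, QuadraticAlgebra.im_add]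
    ring
  · simp only [cjO, QuadraticAlgebra.im_add]
    ring

theorem cjO_one : cjO (1 : OO k) = 1 := by
  apply ext' <;> simp [cjO, re_one, im_one]

theorem cjO_zero : cjO (0 : OO k) = 0 := by
  apply ext' <;> simp [cjO]

/-- Complex conjugation as a ring automorphism of `O`. -/
def cjE (k : ℕ) : OO k ≃+* OO k where
  toFun := cjO
  invFun := cjO
  left_inv := cjO_cjO
  right_inv := cjO_cjO
  map_mul' := cjO_mul
  map_add' := cjO_add

theorem cjE_apply (v : OO k) : cjE k v = cjO v := rfl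

theorem cjO_sub (v u : OO k) : cjO (v - u) = cjO v - cjO u := map_sub (cjE k) v u

theorem cjO_neg (v : OO k) : cjO (-v) = - cjO v := map_neg (cjE k) v

theorem cjO_nat (n : ℕ) : cjO (n : OO k) = n := map_natCast (cjE k) n

theorem cjO_int (n : ℤ) : cjO (n : OO k) = n := map_intCast (cjE k) n

theorem Nm_cjO (v : OO k) : Nm (cjO v) = Nm v := by
  simp only [cjO, Nm]
  ring

theorem Nm_dvd {v u : OO k} (h : v ∣ u) : Nm v ∣ Nm u := by
  obtain ⟨w, rfl⟩ := h
  exact ⟨Nm w, Nm_mul v w⟩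

theorem nat_dvd_iff (n : ℕ) (v : OO k) : (n : OO k) ∣ v ↔ (n : ℤ) ∣ v.re ∧ (n : ℤ) ∣ v.im := by
  constructor
  · rintro ⟨w, rfl⟩
    rw [re_mul, im_mul, re_nat, im_nat]
    exact ⟨⟨w.re, by ring⟩, ⟨w.im, by ring⟩⟩
  · rintro ⟨⟨x, hx⟩, ⟨y, hy⟩⟩
    refine ⟨⟨x, y⟩, ext' ?_ ?_⟩
    · rw [re_mul, re_nat, im_nat, hx]
      ring
    · rw [im_mul, re_nat, im_nat, hy]
      ring

theorem Nm_congr {n : ℕ} {a b : OO k} (h : (n : OO k) ∣ a - b) : (n : ℤ) ∣ Nm a - Nm b := by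
  obtain ⟨h1, h2⟩ := (nat_dvd_iff n _).1 h
  rw [QuadraticAlgebra.re_sub] at h1
  rw [QuadraticAlgebra.im_sub] at h2
  have e : Nm a - Nm b = (a.re - b.re) * (a.re + b.re + a.im) +
      (a.im - b.im) * (b.re + 2 * k * (a.im + b.im)) := by
    unfold Nm
    ring
  rw [e]
  exact dvd_add (h1.mul_right _) (h2.mul_right _)

theorem cop_congr {n : ℕ} {a b : OO k} (h : (n : OO k) ∣ a - b) (ha : Cop a n) : Cop b n := by
  obtain ⟨c, hc⟩ := Nm_congr h
  unfold Cop at *
  have : Nm a = Nm b + n * c := by linarith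
  rw [this] at ha
  exact (IsCoprime.add_mul_left_left_iff).1 ha

theorem cop_mul {n : ℕ} {a b : OO k} (ha : Cop a n) (hb : Cop b n) : Cop (a * b) n := by
  unfold Cop at *
  rw [Nm_mul]
  exact ha.mul_left hb

theorem cop_one (n : ℕ) : Cop (1 : OO k) n := by
  unfold Cop
  rw [Nm_one]
  exact isCoprime_one_left

theorem cop_neg {n : ℕ} {a : OO k} (ha : Cop a n) : Cop (-a) n := by
  unfold Cop at *
  rwa [Nm_neg]

theorem cop_cj {n : ℕ} {a : OO k} (ha : Cop a n) : Cop (cjO a) n := by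
  unfold Cop at *
  rwa [Nm_cjO]

theorem cop_dvd {n m : ℕ} {a : OO k} (ha : Cop a n) (h : m ∣ n) : Cop a m := by
  unfold Cop at *
  exact ha.of_isCoprime_of_dvd_right (by exact_mod_cast h)

/-- An element prime to `n` is invertible modulo `n`. -/
theorem cop_inv {n : ℕ} {a : OO k} (ha : Cop a n) : ∃ b : OO k, Cop b n ∧ (n : OO k) ∣ a * b - 1 := by
  obtain ⟨x, y, hxy⟩ := ha
  refine ⟨cjO a * (x : OO k), ?_, ?_⟩
  · refine cop_mul ?_ ?_
    · exact cop_cj ⟨x, y, hxy⟩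
    · unfold Cop
      rw [Nm_int]
      refine IsCoprime.pow_left ⟨Nm a, y, ?_⟩
      linarith
  · refine ⟨-(y : OO k), ?_⟩
    have e : a * (cjO a * (x : OO k)) = (Nm a : OO k) * x := by
      rw [← mul_assoc, mul_cjO]
    rw [e]
    have h2 : ((x * Nm a + y * n : ℤ) : OO k) = 1 := by rw [hxy]; simp
    push_cast at h2
    linear_combination h2

instance [SqK k] : IsDomain (OO k) := by
  have : NoZeroDivisors (OO k) := ⟨fun {a b} h => by
    have h1 : Nm a * Nm b = 0 := by rw [← Nm_mul, h, Nm_zero]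
    rcases mul_eq_zero.1 h1 with h2 | h2
    · exact Or.inl (Nm_eq_zero h2)
    · exact Or.inr (Nm_eq_zero h2)⟩
  exact NoZeroDivisors.to_isDomain _

/-! ## The embeddings -/

theorem wC_sq [SqK k] : wC k ^ 2 = wC k - 2 * k := wC_sq' k hk

/-- The ring homomorphism `toC`. -/
def toCh (k : ℕ) [SqK k] : OO k →+* ℂ := evO (wC k) wC_sq

theorem toCh_apply [SqK k] (v : OO k) : toCh k v = toC v := rfl

theorem toC_mul [SqK k] (v u : OO k) : toC (v * u) = toC v * toC u := map_mul (toCh k) v u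

theorem toC_add (v u : OO k) : toC (v + u) = toC v + toC u := by
  rw [toC_apply, toC_apply, toC_apply, QuadraticAlgebra.re_add, QuadraticAlgebra.im_add]
  push_cast
  ring

theorem toC_sub (v u : OO k) : toC (v - u) = toC v - toC u := by
  rw [toC_apply, toC_apply, toC_apply, QuadraticAlgebra.re_sub, QuadraticAlgebra.im_sub]
  push_cast
  ring

theorem toC_neg (v : OO k) : toC (-v) = -toC v := by
  rw [toC_apply, toC_apply, QuadraticAlgebra.re_neg, QuadraticAlgebra.im_neg]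
  push_cast
  ring

theorem toC_zero : toC (0 : OO k) = 0 := by simp [toC_apply]

theorem toC_one : toC (1 : OO k) = 1 := by simp [toC_apply, re_one, im_one]

theorem toC_nat (n : ℕ) : toC (n : OO k) = n := by simp [toC_apply]

theorem toC_int (n : ℤ) : toC (n : OO k) = n := by simp [toC_apply]

theorem toC_two : toC (2 : OO k) = 2 := by
  have := toC_nat (k := k) 2
  exact_mod_cast this

theorem toC_pow [SqK k] (v : OO k) (n : ℕ) : toC (v ^ n) = toC v ^ n := map_pow (toCh k) v n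

theorem toC_wI : toC (wI k) = wC k := by
  rw [toC_apply]
  simp [wI]

theorem toC_sD : toC (sD k) = 2 * wC k - 1 := by
  rw [toC_apply]
  simp [sD]
  ring

theorem wC_re : (wC k).re = 1 / 2 := rfl

theorem wC_im_pos [SqK k] : 0 < (wC k).im := by
  have h1 : (0 : ℝ) < (Dk k : ℝ) := by
    rw [Dk_castR]
    have := hk1 (k := k)
    have h2 : (1 : ℝ) ≤ k := by exact_mod_cast this
    linarith
  have h2 : 0 < √(Dk k : ℝ) := Real.sqrt_pos.2 h1
  change 0 < √(Dk k : ℝ) / 2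
  positivity

theorem toC_inj [SqK k] : Function.Injective (toC : OO k → ℂ) := by
  intro u v h
  rw [toC_apply, toC_apply] at h
  have hs := wC_im_pos (k := k)
  have h1 := congrArg Complex.im h
  have h2 := congrArg Complex.re h
  simp only [Complex.add_im, Complex.intCast_im, Complex.mul_im, Complex.intCast_re, zero_mul,
    add_zero, zero_add] at h1
  simp only [Complex.add_re, Complex.intCast_re, Complex.mul_re, Complex.intCast_im, zero_mul,
    sub_zero] at h2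
  have h3 : (u.im : ℝ) = v.im := mul_right_cancel₀ hs.ne' h1
  have h4 : u.im = v.im := by exact_mod_cast h3
  rw [h4] at h2
  have h5 : (u.re : ℝ) = v.re := by linarith
  exact ext' (by exact_mod_cast h5) h4

theorem toC_ne [SqK k] {v : OO k} (h : v ≠ 0) : toC v ≠ 0 := fun h1 => h (toC_inj (by rw [h1, toC_zero]))

theorem toC_eq_zero [SqK k] {v : OO k} : toC v = 0 ↔ v = 0 :=
  ⟨fun h => toC_inj (by rw [h, toC_zero]), fun h => by rw [h, toC_zero]⟩

theorem conj_wC : (starRingEnd ℂ) (wC k) = 1 - wC k := by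
  apply Complex.ext
  · simp only [wC, Complex.conj_re, Complex.sub_re, Complex.one_re]
    norm_num
  · simp only [wC, Complex.conj_im, Complex.sub_im, Complex.one_im]
    norm_num

theorem conj_toC (v : OO k) : (starRingEnd ℂ) (toC v) = toC (cjO v) := by
  rw [toC_apply, toC_apply, map_add, map_mul, conj_wC, map_intCast, map_intCast]
  simp only [cjO]
  push_cast
  ring

theorem toC_Nm [SqK k] (v : OO k) : ((Nm v : ℤ) : ℂ) = toC v * toC (cjO v) := by
  rw [← toC_mul, mul_cjO, toC_int]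

theorem Nm_norm [SqK k] (v : OO k) : ((Nm v : ℤ) : ℝ) = ‖toC v‖ ^ 2 := by
  have h : ((Nm v : ℤ) : ℂ) = ((‖toC v‖ ^ 2 : ℝ) : ℂ) := by
    rw [toC_Nm, ← conj_toC, Complex.mul_conj, Complex.normSq_eq_norm_sq]
  exact_mod_cast h

theorem wC_int (k : ℕ) [SqK k] : IsIntegral ℤ (wC k) := by
  refine ⟨Polynomial.X ^ 2 - Polynomial.X + Polynomial.C (2 * (k : ℤ)), ?_, ?_⟩
  · monicity!
  · simp only [Polynomial.eval₂_add, Polynomial.eval₂_sub, Polynomial.eval₂_pow, Polynomial.eval₂_X,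
      Polynomial.eval₂_C]
    rw [wC_sq]
    simp

theorem io_wO [SqK k] : io (wO k) = wC k :=
  io_ofC _ ((wC_int k).isAlgebraic.extendScalars (algebraMap ℤ ℚ).injective_int)

theorem wO_sq [SqK k] : wO k ^ 2 = wO k - 2 * k := by
  apply io_inj
  rw [map_pow, io_wO, map_sub, io_wO, wC_sq, map_mul, map_ofNat, map_natCast]

/-- The ring homomorphism `toO`. -/
def toOh (k : ℕ) [SqK k] : OO k →+* Om := evO (wO k) wO_sq

theorem toOh_apply [SqK k] (v : OO k) : toOh k v = toO v := rfl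

theorem toO_apply (v : OO k) : toO v = v.re + v.im * wO k := rfl

theorem io_toO [SqK k] (v : OO k) : io (toO v) = toC v := by
  rw [toO_apply, map_add, map_mul, io_wO, map_intCast, map_intCast, toC_apply]

theorem toO_inj [SqK k] : Function.Injective (toO : OO k → Om) := by
  intro u v h
  apply toC_inj
  rw [← io_toO, ← io_toO, h]

theorem toO_mul [SqK k] (v u : OO k) : toO (v * u) = toO v * toO u := map_mul (toOh k) v u

theorem toO_add [SqK k] (v u : OO k) : toO (v + u) = toO v + toO u := map_add (toOh k) v u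

theorem toO_sub [SqK k] (v u : OO k) : toO (v - u) = toO v - toO u := map_sub (toOh k) v u

theorem toO_neg [SqK k] (v : OO k) : toO (-v) = -toO v := map_neg (toOh k) v

theorem toO_zero [SqK k] : toO (0 : OO k) = 0 := map_zero (toOh k)

theorem toO_one [SqK k] : toO (1 : OO k) = 1 := map_one (toOh k)

theorem toO_nat [SqK k] (n : ℕ) : toO (n : OO k) = n := map_natCast (toOh k) n

theorem toO_int [SqK k] (n : ℤ) : toO (n : OO k) = n := map_intCast (toOh k) n

theorem toO_pow [SqK k] (v : OO k) (n : ℕ) : toO (v ^ n) = toO v ^ n := map_pow (toOh k) v n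

theorem toO_ne [SqK k] {v : OO k} (h : v ≠ 0) : toO v ≠ 0 := fun h1 => h (toO_inj (by rw [h1, toO_zero]))

theorem toO_wI [SqK k] : toO (wI k) = wO k := by
  rw [toO_apply]
  simp [wI]

theorem toO_integral [SqK k] (v : OO k) : IsIntegral ℤ (toO v) := by
  have h : IsIntegral ℤ (wO k) := by
    refine ⟨Polynomial.X ^ 2 - Polynomial.X + Polynomial.C (2 * (k : ℤ)), ?_, ?_⟩
    · monicity!
    · simp only [Polynomial.eval₂_add, Polynomial.eval₂_sub, Polynomial.eval₂_pow, Polynomial.eval₂_X,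
        Polynomial.eval₂_C]
      rw [wO_sq]
      simp
  rw [toO_apply]
  have h1 : ∀ n : ℤ, IsIntegral ℤ (n : Om) := fun n => by
    simpa using isIntegral_algebraMap (R := ℤ) (A := Om) (x := n)
  exact (h1 _).add ((h1 _).mul h)

theorem toO_VP [SqK k] {P : Ideal ZZ} [P.IsPrime] (v : OO k) : VP P (toO v) :=
  DI.VP.integral (toO_integral v)

/-! ## The lattices -/

theorem mem_Lam {b : Ideal (OO k)} {z : ℂ} : z ∈ Lam b ↔ ∀ v ∈ b, ∃ u : OO k, toC v * z = toC u := Iff.rfl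

theorem lam_zero (b : Ideal (OO k)) : (0 : ℂ) ∈ Lam b := fun v _ => ⟨0, by rw [mul_zero, toC_zero]⟩

theorem lam_add {b : Ideal (OO k)} {z z' : ℂ} (h : z ∈ Lam b) (h' : z' ∈ Lam b) : z + z' ∈ Lam b := by
  intro v hv
  obtain ⟨u, hu⟩ := h v hv
  obtain ⟨u', hu'⟩ := h' v hv
  exact ⟨u + u', by rw [mul_add, hu, hu', toC_add]⟩

theorem lam_neg {b : Ideal (OO k)} {z : ℂ} (h : z ∈ Lam b) : -z ∈ Lam b := by
  intro v hv
  obtain ⟨u, hu⟩ := h v hv
  exact ⟨-u, by rw [mul_neg, hu, toC_neg]⟩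

theorem lam_sub {b : Ideal (OO k)} {z z' : ℂ} (h : z ∈ Lam b) (h' : z' ∈ Lam b) : z - z' ∈ Lam b := by
  rw [sub_eq_add_neg]
  exact lam_add h (lam_neg h')

theorem lam_neg_iff {b : Ideal (OO k)} {z : ℂ} : -z ∈ Lam b ↔ z ∈ Lam b :=
  ⟨fun h => by rw [← neg_neg z]; exact lam_neg h, lam_neg⟩

theorem lam_add_left_iff {b : Ideal (OO k)} {z z' : ℂ} (h : z ∈ Lam b) : z + z' ∈ Lam b ↔ z' ∈ Lam b :=
  ⟨fun h' => by rw [← add_sub_cancel_left z z']; exact lam_sub h' h, fun h' => lam_add h h'⟩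

theorem lam_sub_iff {b : Ideal (OO k)} {z z' : ℂ} (h : z - z' ∈ Lam b) : z ∈ Lam b ↔ z' ∈ Lam b :=
  ⟨fun h' => by rw [← sub_sub_cancel z z']; exact lam_sub h' h,
    fun h' => by rw [← sub_add_cancel z z']; exact lam_add h h'⟩

theorem lam_mul [SqK k] {b : Ideal (OO k)} {z : ℂ} (u : OO k) (h : z ∈ Lam b) : toC u * z ∈ Lam b := by
  intro v hv
  obtain ⟨u', hu'⟩ := h v hv
  refine ⟨u * u', ?_⟩
  rw [toC_mul, ← hu']
  ring

theorem lam_prod [SqK k] {a b : Ideal (OO k)} {z : ℂ} :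
    z ∈ Lam (a * b) ↔ ∀ v ∈ a, toC v * z ∈ Lam b := by
  constructor
  · intro h v hv u hu
    obtain ⟨w, hw⟩ := h (v * u) (Ideal.mul_mem_mul hv hu)
    refine ⟨w, ?_⟩
    rw [← hw, toC_mul]
    ring
  · intro h w hw
    refine Submodule.mul_induction_on hw ?_ ?_
    · intro v hv u hu
      obtain ⟨w, hw⟩ := h v hv u hu
      refine ⟨w, ?_⟩
      rw [← hw, toC_mul]
      ring
    · rintro x y ⟨x', hx⟩ ⟨y', hy⟩
      exact ⟨x' + y', by rw [toC_add, add_mul, hx, hy, toC_add]⟩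

theorem lam_mono [SqK k] {a b : Ideal (OO k)} {z : ℂ} (h : z ∈ Lam b) : z ∈ Lam (a * b) :=
  lam_prod.2 fun v _ => lam_mul v h

theorem lam_anti {b b' : Ideal (OO k)} (h : b ≤ b') {z : ℂ} (hz : z ∈ Lam b') : z ∈ Lam b :=
  fun v hv => hz v (h hv)

theorem lam_sp [SqK k] {α : OO k} {b : Ideal (OO k)} {z : ℂ} :
    z ∈ Lam (sp α * b) ↔ toC α * z ∈ Lam b := by
  rw [lam_prod]
  constructor
  · intro h
    exact h α (Ideal.mem_span_singleton_self α)
  · intro h v hv
    obtain ⟨u, rfl⟩ := Ideal.mem_span_singleton'.1 hv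
    rw [toC_mul, mul_assoc]
    exact lam_mul u h

theorem lam_top [SqK k] {z : ℂ} : z ∈ Lam (⊤ : Ideal (OO k)) ↔ ∃ v : OO k, z = toC v := by
  constructor
  · intro h
    obtain ⟨u, hu⟩ := h 1 trivial
    exact ⟨u, by rw [← hu, toC_one, one_mul]⟩
  · rintro ⟨v, rfl⟩ u _
    exact ⟨u * v, by rw [toC_mul]⟩

theorem lam_nat [SqK k] {b : Ideal (OO k)} {z : ℂ} (n : ℕ) (h : z ∈ Lam b) : (n : ℂ) * z ∈ Lam b := by
  rw [← toC_nat (k := k)]
  exact lam_mul _ h

/-- A nonzero ideal contains a positive integer. -/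
theorem exists_nat [SqK k] {b : Ideal (OO k)} (hb : b ≠ ⊥) : ∃ n : ℕ, 0 < n ∧ (n : OO k) ∈ b := by
  obtain ⟨v, hv, hv0⟩ := Submodule.exists_mem_ne_zero_of_ne_bot hb
  refine ⟨(Nm v).toNat, ?_, ?_⟩
  · have := Nm_pos hv0
    omega
  · have h1 : ((Nm v).toNat : ℤ) = Nm v := Int.toNat_of_nonneg (Nm_nonneg v)
    have h2 : (((Nm v).toNat : ℕ) : OO k) = ((Nm v : ℤ) : OO k) := by
      conv_rhs => rw [← h1]
      rw [Int.cast_natCast]
    rw [h2, ← mul_cjO]
    exact b.mul_mem_right _ hv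

/-! ## Torsion points -/

theorem tor_zero : Tor k 0 := ⟨0, 1, one_pos, by simp [toC_zero]⟩

theorem tor_div {N : ℕ} (hN : 0 < N) (v : OO k) : Tor k (toC v / N) := ⟨v, N, hN, rfl⟩

theorem tor_add [SqK k] {z z' : ℂ} (h : Tor k z) (h' : Tor k z') : Tor k (z + z') := by
  obtain ⟨v, n, hn, rfl⟩ := h
  obtain ⟨u, m, hm, rfl⟩ := h'
  have hn' : (n : ℂ) ≠ 0 := by exact_mod_cast hn.ne'
  have hm' : (m : ℂ) ≠ 0 := by exact_mod_cast hm.ne'
  refine ⟨v * m + u * n, n * m, Nat.mul_pos hn hm, ?_⟩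
  rw [toC_add, toC_mul, toC_mul, toC_nat, toC_nat]
  push_cast
  field_simp

theorem tor_neg {z : ℂ} (h : Tor k z) : Tor k (-z) := by
  obtain ⟨v, n, hn, rfl⟩ := h
  exact ⟨-v, n, hn, by rw [toC_neg, neg_div]⟩

theorem tor_sub [SqK k] {z z' : ℂ} (h : Tor k z) (h' : Tor k z') : Tor k (z - z') := by
  rw [sub_eq_add_neg]
  exact tor_add h (tor_neg h')

theorem tor_mul [SqK k] {z : ℂ} (v : OO k) (h : Tor k z) : Tor k (toC v * z) := by
  obtain ⟨u, n, hn, rfl⟩ := h
  exact ⟨v * u, n, hn, by rw [toC_mul]; ring⟩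

theorem tor_lam [SqK k] {b : Ideal (OO k)} (hb : b ≠ ⊥) {z : ℂ} (h : z ∈ Lam b) : Tor k z := by
  obtain ⟨n, hn, hnb⟩ := exists_nat hb
  obtain ⟨u, hu⟩ := h _ hnb
  have hn' : (n : ℂ) ≠ 0 := by exact_mod_cast hn.ne'
  refine ⟨u, n, hn, ?_⟩
  rw [← hu, toC_nat]
  field_simp

theorem tor_iff [SqK k] {b : Ideal (OO k)} (hb : b ≠ ⊥) {z : ℂ} :
    Tor k z ↔ ∃ N : ℕ, 0 < N ∧ (N : ℂ) * z ∈ Lam b := by
  constructor
  · rintro ⟨v, n, hn, rfl⟩
    have hn' : (n : ℂ) ≠ 0 := by exact_mod_cast hn.ne'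
    refine ⟨n, hn, ?_⟩
    rw [mul_div_cancel₀ _ hn']
    intro u _
    exact ⟨u * v, by rw [toC_mul]⟩
  · rintro ⟨N, hN, h⟩
    have hN' : (N : ℂ) ≠ 0 := by exact_mod_cast hN.ne'
    obtain ⟨v, n, hn, hv⟩ := tor_lam hb h
    refine ⟨v, n * N, Nat.mul_pos hn hN, ?_⟩
    have h1 : z = (N * z) / N := by field_simp
    rw [h1, hv]
    push_cast
    rw [div_div]

/-- `1 / N` is an `N`-torsion point of `ℂ / Lam b`. -/
theorem one_div_lam [SqK k] (b : Ideal (OO k)) {N : ℕ} (hN : 0 < N) : (N : ℂ) * (1 / N) ∈ Lam b := by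
  have hN' : (N : ℂ) ≠ 0 := by exact_mod_cast hN.ne'
  intro v _
  refine ⟨v, ?_⟩
  field_simp

/-! ## `GK` -/

theorem mem_GK_iff {τ : Gal(Om/ℚ)} : τ ∈ GK k ↔ τ (wO k) = wO k := by
  unfold GK KQ
  constructor
  · intro h
    exact h ⟨wO k, IntermediateField.mem_adjoin_simple_self ℚ (wO k)⟩
  · intro h
    rw [IntermediateField.mem_fixingSubgroup_iff]
    intro x hx
    exact IntermediateField.adjoin_induction (F := ℚ) (E := Om)
      (p := fun x _ => τ x = x) (by rintro y rfl; exact h) (fun r => τ.commutes r)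
      (fun x y _ _ h1 h2 => by rw [map_add, h1, h2]) (fun x _ h1 => by rw [map_inv₀, h1])
      (fun x y _ _ h1 h2 => by rw [map_mul, h1, h2]) hx

theorem GK_toO {τ : Gal(Om/ℚ)} (hτ : τ ∈ GK k) (v : OO k) : τ (toO v) = toO v := by
  change τ ((v.re : Om) + v.im * wO k) = v.re + v.im * wO k
  rw [map_add, map_mul, mem_GK_iff.1 hτ, map_intCast, map_intCast]

end Pool.Agent.DK
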