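import Pool.Agent.Lib.DK.E.All
import Pool.Agent.Lib.DK.G.All
import Pool.Agent.Lib.DK.H3.All
import Pool.Agent.Lib.DK.PI.Top

/-!
# Theorem DK from the parts B, C, F

`thmDK_fin (B : HB) : S_C4 → S_C6 → S_C9 → S_V → S_F → ThmDK`.
-/

set_option autoImplicit false

noncomputable section

namespace Pool.Agent.DK

/-- The inputs of part G. -/
theorem gIn (B : HB) : G.GIn where
  O2 := aO2
  O4 := aO4
  O6 := aO6
  O7 := aO7
  O8 := aO8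
  O9 := aO9
  L6 := aL6
  B1 := B.b1
  B4 := B.b4
  B7 := B.b7
  B14 := B.b14
  R1 := aR1 B
  R4 := aR4 B
  D1 := aD1 B
  D2 := aD2 B
  D5 := aD5 B
  D7 := aD7 B
  D8 := aD8 B
  D9 := aD9 B
  E1 := aE1 B
  E6 := aE6 B
  E7 := aE7 B
  E8 := aE8 B
  E9 := aE9 B
  E10 := aE10 B

/-- The inputs of part H. -/
theorem hIn (B : HB) : H3.HIn where
  b1 := B.b1
  b7 := B.b7
  r4 := aR4 B
  d3 := aD3 B
  d4 := aD4 B
  d5 := aD5 B
  d6 := aD6 B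
  d7 := aD7 B
  d8 := aD8 B
  e1 := aE1 B
  e2 := aE2 B
  e4 := aE4 B
  e8 := aE8 B
  e9 := aE9 B
  e10 := aE10 B
  gm := G.aGM (gIn B)
  g3 := G.aG3 (gIn B)

/-- The inputs of part I. -/
theorem iIn (B : HB) (c4 : S_C4) (c6 : S_C6) (c9 : S_C9) (v : S_V) (f : S_F) : PI.AllIn where
  O1 := aO1
  O2 := aO2
  O4 := aO4
  O6 := aO6
  O7 := aO7
  O8 := aO8
  O9 := aO9
  L1 := aL1
  L2 := aL2
  L6 := aL6
  B1 := B.b1
  B7 := B.b7
  R1 := aR1 B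
  R4 := aR4 B
  E1 := aE1 B
  E6 := aE6 B
  E7 := aE7 B
  E8 := aE8 B
  E9 := aE9 B
  GR := G.aGR (gIn B)
  GM := G.aGM (gIn B)
  G3 := G.aG3 (gIn B)
  G := G.aG (gIn B) c4 c6 c9 v f
  H := H3.aH (hIn B)

/-- **Theorem DK** from the parts B, C, F. -/
theorem thmDK_fin (B : HB) (c4 : S_C4) (c6 : S_C6) (c9 : S_C9) (v : S_V) (f : S_F) : ThmDK :=
  PI.thmDK_of (iIn B c4 c6 c9 v f)

end Pool.Agent.DK
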