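import Pool.Agent.Lib.DK.B.All
import Pool.Agent.Lib.DK.C.All
import Pool.Agent.Lib.DK.F.All
import Pool.Agent.Lib.DK.Fin

/-!
# Theorem DK

`K = ℚ(√-D)`, `D = 8 k - 1` squarefree (the imaginary quadratic fields in which `2` splits): for `p = 2` and
every number field `F` inside of the field generated by `√-D`, `j(O)` and the values of the Weber function at
the torsion points (the maximal abelian extension of `K`), `X(F^cyc)` is finitely generated.
-/

set_option autoImplicit false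

noncomputable section

namespace Pool.Agent.DK

/-- Part F. -/
theorem allF : S_F :=
  have R5 := aR5 hB
  have D9 := aD9 hB
  have b10 := hB.b10
  have b12 := hB.b12
  F.tF hB.b1 hB.b2 hB.b4 hB.b5 hB.b6 hB.b7 hB.b12 (aC2 b10 R5) aC3 (aC6 b10 b12 R5) aC7
    (aC8 b10 b12 R5 (aE1 hB) (aE6 hB) (aE10 hB)) (aC9 b10 b12 R5 D9) (aR1 hB) (aR2 hB) (aR4 hB) R5
    (aR5b hB) (aD1 hB) (aD2 hB) D9 (aE1 hB) (aE3 hB) (aE4 hB) (aE7 hB) (aE8 hB) (aE10 hB) (aCj hB)
    FW.tIne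

/-- **Theorem DK.** -/
theorem thmDK : ThmDK :=
  thmDK_fin hB (aC4 hB.b10 (aR5 hB)) (aC6 hB.b10 hB.b12 (aR5 hB))
    (aC9 hB.b10 hB.b12 (aR5 hB) (aD9 hB)) (aV hB.b10 hB.b12 (aR5 hB) (aD9 hB)) allF

end Pool.Agent.DK
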