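import Pool.Agent.Lib.DK.Iface

/-!
# Theorem DK: the interface of part C (theta series) and of the input of part V (helper36)

Every `S_...` is a statement which is proved by ONE part and used by others. Nothing is proved here.
Proofs: note C' of helper36. A false or awkward statement: mail helper36 at once.

`f` odd, `3 ≤ f`; `m` (the smoothing ideal) prime to `2 f`; `b` prime to `f`. `M` is a LEVEL: an odd
multiple of `lev f m R`, where `R` is a finite set of ideals prime to `2 f`.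
-/

set_option autoImplicit false

open scoped Pointwise Topology
open Filter

noncomputable section

namespace Pool.Agent.DK

open Pool.Agent.MuZ Pool.Agent.FW NumberField
open Pool.Agent.DI (io ofC io_inj exists_io io_ofC ofC_io VP MP UP TP ex sqr sqr_sq kap)

/-! ## Definitions -/

/-- The conditions on `f` and `m`. -/
structure FM {k : ℕ} (f : ℕ) (m : Ideal (OO k)) : Prop where
  odd : Odd f
  three : 3 ≤ f
  ne : m ≠ ⊥
  two : PrI m 2
  cop : PrI m f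

/-- The conditions on `b`. -/
structure FB {k : ℕ} (f : ℕ) (b : Ideal (OO k)) : Prop where
  ne : b ≠ ⊥
  cop : PrI b f

/-- The conditions on the set `R`. -/
def FR {k : ℕ} (f : ℕ) (R : Finset (Ideal (OO k))) : Prop := ∀ b ∈ R, b ≠ ⊥ ∧ PrI b f ∧ PrI b 2

/-- The minimal level. -/
def lev {k : ℕ} (f : ℕ) (m : Ideal (OO k)) (R : Finset (Ideal (OO k))) : ℕ :=
  Dk k * f ^ 2 * (NI m * ∏ b ∈ R, NI b) ^ 3

/-- `M` is a level for `R`. -/
structure IsLv {k : ℕ} (f : ℕ) (m : Ideal (OO k)) (R : Finset (Ideal (OO k))) (M : ℕ) : Prop where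
  odd : Odd M
  three : 3 ≤ M
  dvd : lev f m R ∣ M

/-- The integer `N(m) N(b) |x|²`, `x ∈ Lam (m b)`. -/
def qN {k : ℕ} (m b : Ideal (OO k)) (x : ℂ) : ℤ := ⌊(NI m : ℝ) * NI b * ‖x‖ ^ 2⌋

open Classical in
/-- The finite set of the `v ∈ 1/f + Lam b` with `f² N(b) |v|² = n`. -/
def vN {k : ℕ} (f : ℕ) (b : Ideal (OO k)) (n : ℕ) : Finset ℂ :=
  if h : {v : ℂ | v - 1 / f ∈ Lam b ∧ (f : ℝ) ^ 2 * NI b * ‖v‖ ^ 2 = n}.Finite then h.toFinset else ∅

open Classical in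
/-- The coefficient of `e(n z)` in `fr(b) ThM f m b z`, an element of `K`. -/
def cM {k : ℕ} (f : ℕ) (m b : Ideal (OO k)) (n : ℕ) : ℂ :=
  ∑ v ∈ vN f (m * b) n, (if v - 1 / f ∈ Lam b then (1 - NI m : ℂ) else 1) * v⁻¹

/-! ## Part C -/

/-- Transformation under `Γ_0(M)`, on the values. -/
def S_C1 : Prop :=
  ∀ (k : ℕ) [SqK k] (f M : ℕ) (m b : Ideal (OO k)), FM f m → FB f b → PrI b 2 → IsLv f m {b} M →
    ∀ (a b' c d : ℤ), G0 M a b' c d → a ≠ 0 ∧ d ≠ 0 ∧ ∀ r : ℚ, r.den.Coprime M →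
      (c : ℚ) * r + d ≠ 0 ∧
      etaM f m b ((a * r + b') / (c * r + d)) =
        (eps (d : OO k) : Om) * (rO f b (sp (a : OO k) * b) / a) *
          (etaM f m (sp (a : OO k) * b) r - etaM f m (sp (a : OO k) * b) 0) + etaM f m b (b' / d)

/-- Transformation under `Γ_1(M)`, on the upper half plane. -/
def S_C2 : Prop :=
  ∀ (k : ℕ) [SqK k] (f M : ℕ) (m b : Ideal (OO k)), FM f m → FB f b → PrI b 2 → IsLv f m {b} M →
    ∀ (a b' c d : ℤ), G0 M a b' c d → (M : ℤ) ∣ d - 1 → ∀ z : ℂ, 0 < z.im →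
      ThM f m b ((a * z + b') / (c * z + d)) =
        ThM f m b z + io (etaM f m b (b' / d) - etaM f m b 0)

/-- Expansions at all cusps. -/
def S_C3 : Prop :=
  ∀ (k : ℕ) [SqK k] (f M : ℕ) (m b : Ideal (OO k)), FM f m → FB f b → PrI b 2 → IsLv f m {b} M →
    ∀ (a b' c d : ℤ), a * d - b' * c = 1 →
    ∃ (c0 : ℂ) (cf : ℕ → ℂ) (C : ℝ), (∀ n, ‖cf n‖ ≤ C * (n + 1) ^ 3) ∧ ∀ z : ℂ, 0 < z.im →
      HasSum (fun n : ℕ => cf n * ex ((n + 1) * z / M))
        (ThM f m b ((a * z + b') / (c * z + d)) - c0)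

/-- The values: the limit exists, it is algebraic, and the formula; `U` is a system of representatives
of `(1/n) Lam b / Lam b`. -/
def S_C4 : Prop :=
  ∀ (k : ℕ) [SqK k] (f : ℕ) (m b : Ideal (OO k)), FM f m → FB f b → ∀ (c : ℤ) (n : ℕ), 0 < n →
    n.Coprime (NI m) →
    Tendsto (fun y : ℝ => ThM f m b (((c / n : ℚ) : ℂ) + y * Complex.I)) (𝓝[>] 0)
      (𝓝 (hM f m b (c / n))) ∧
    io (etaM f m b (c / n)) = hM f m b (c / n) ∧
    ∀ U : Finset ℂ, IsSys (sp (n : OO k)) b U →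
      (∀ u ∈ U, (qN m b (1 + f * n * u) : ℝ) = (NI m : ℝ) * NI b * ‖1 + f * n * u‖ ^ 2) ∧
      etaM f m b (c / n) = (n : Om)⁻¹ *
        ∑ u ∈ U, zet n ^ (c * qN m b (1 + f * n * u)) * gO f m b (1 / (f * n) + u)

/-- The distribution relation for `2`; `h` is an inverse of `2` modulo `f`. -/
def S_C5 : Prop :=
  ∀ (k : ℕ) [SqK k] (f : ℕ) (m b : Ideal (OO k)), FM f m → FB f b → ∀ h : ℕ, 0 < h →
    (f : ℤ) ∣ 2 * h - 1 → ∀ r : ℚ, r.den.Coprime (NI m) →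
      etaM f m b (r / 2) + etaM f m b ((r + 1) / 2) +
        rO f b (sp (h : OO k) * b) / h * etaM f m (sp (h : OO k) * b) (2 * r) =
      rO f b (sp (h : OO k) * ppb k * b) / h * etaM f m (sp (h : OO k) * ppb k * b) r +
        rO f b (sp (h : OO k) * pp k * b) / h * etaM f m (sp (h : OO k) * pp k * b) r

/-- Class functions, period, complex conjugation. -/
def S_C6 : Prop :=
  ∀ (k : ℕ) [SqK k] (f : ℕ) (m b : Ideal (OO k)), FM f m → FB f b →
    (∀ b' : Ideal (OO k), FB f b' → Ray f b b' →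
      (∀ z : ℂ, ThM f m b z = ThM f m b' z) ∧ ∀ r : ℚ, etaM f m b r = etaM f m b' r) ∧
    (∀ r : ℚ, etaM f m b (r + 1) = etaM f m b r) ∧
    (∀ z : ℂ, (starRingEnd ℂ) (ThM f m b z) = ThM f (cjI m) (cjI b) (-(starRingEnd ℂ) z)) ∧
    ∀ c : Gal(Om/ℚ), (∀ x : Om, io (c x) = (starRingEnd ℂ) (io x)) → ∀ r : ℚ,
      r.den.Coprime (NI m) → c (etaM f m b r) = etaM f (cjI m) (cjI b) (-r)

/-- Holomorphy; the `q`-expansion; the finite sets `vN`. -/
def S_C7 : Prop :=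
  ∀ (k : ℕ) [SqK k] (f : ℕ) (m b : Ideal (OO k)), FM f m → FB f b →
    DifferentiableOn ℂ (ThM f m b) {z | 0 < z.im} ∧
    (∀ (n : ℕ) (v : ℂ), v ∈ vN f (m * b) n ↔
      v - 1 / f ∈ Lam (m * b) ∧ (f : ℝ) ^ 2 * NI (m * b) * ‖v‖ ^ 2 = n) ∧
    vN f (m * b) 0 = ∅ ∧ (∃ C : ℝ, ∀ n : ℕ, ‖cM f m b n‖ ≤ C * (n + 1) ^ 2) ∧
    ∀ z : ℂ, 0 < z.im → HasSum (fun n : ℕ => cM f m b n / fr f b * ex (n * z)) (ThM f m b z)

/-- The Galois action on the values. -/
def S_C8 : Prop :=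
  ∀ (k : ℕ) [SqK k] (f : ℕ) (m b : Ideal (OO k)), FM f m → FB f b → ∀ r : ℚ,
    r.den.Coprime (NI m) → ∀ τ ∈ GK k, ∀ a : Ideal (OO k), Psi τ f a →
      τ (etaM f m b r) = etaM f m (a * b) r

/-- Integrality at the primes above `2`. -/
def S_C9 : Prop :=
  ∀ (k : ℕ) [SqK k] (f M : ℕ) (m b : Ideal (OO k)), FM f m → FB f b → PrI b 2 → IsLv f m {b} M →
    ∀ r : ℚ, r.den.Coprime M → ∀ P : Ideal ZZ, Npr P → MP P 2 → VP P (etaM f m b r)

/-! ## The input of part V -/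

/-- The functions `η_χ`: integrality, period; modulo `P`: transformation under `Γ_0(M)`; modulo `2 V_P`: the
Hecke relation. -/
def S_V : Prop :=
  ∀ (k : ℕ) [SqK k] (f M : ℕ) (m : Ideal (OO k)) (R : Finset (Ideal (OO k))), FM f m → FR f R →
    IsRC f R → IsLv f m R M → ∀ χ : Ideal (OO k) → Om, IsChi f χ →
    (∀ P : Ideal ZZ, Npr P → MP P 2 → ∀ r : ℚ, r.den.Coprime M → VP P (etaX f m R χ r)) ∧
    (∀ r : ℚ, etaX f m R χ (r + 1) = etaX f m R χ r) ∧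
    ∀ P : Ideal ZZ, AbP k P →
      (∀ (a b c d : ℤ), G0 M a b c d → ∀ r : ℚ, r.den.Coprime M →
        (c : ℚ) * r + d ≠ 0 ∧ ((a * r + b) / (c * r + d) : ℚ).den.Coprime M ∧
        MP P (etaX f m R χ ((a * r + b) / (c * r + d)) - χ (sp (d : OO k)) * etaX f m R χ r -
          (etaX f m R χ (b / d) - χ (sp (d : OO k)) * etaX f m R χ 0))) ∧
      ∀ r : ℚ, r.den.Coprime M →
        TP P 2 (etaX f m R χ (r / 2) + etaX f m R χ ((r + 1) / 2) +
          χ (sp 2) * etaX f m R χ (2 * r) - χ (pp k) * etaX f m R χ r)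

end Pool.Agent.DK
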