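import Pool.Agent.Lib.DI.Defs
import Pool.Agent.Lib.FW.RDefs

/-!
# Theorem DK: definitions

`D = 8 k - 1` squarefree, `O = ℤ[w]`, `w = (1 + √-D)/2`, `w ^ 2 = w - 2 k`; `2 = 𝔭 𝔭̄`, `𝔭 = (2, w)`,
`𝔭̄ = (2, 1 - w)`. For a nonzero ideal `b` of `O`: the lattice `Lam b = b⁻¹ = {z | b z ⊆ O}` of `ℂ`.
The functions on `ℂ / Lam b`: `wpC b`, `wdC b`, `XC b`, `KC b`; the numbers `DC b`, `ThC b`, `s2 b`, `fr f b`.
`X` is the coordinate of `Y² + XY = X³ + 4 𝒟 X² + 𝒟 X`, `W = 2 Y + X`, `𝒟 = DC b`.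
-/

set_option autoImplicit false

open scoped Pointwise Topology
open Filter

noncomputable section

namespace Pool.Agent.DK

open Pool.Agent.MuZ Pool.Agent.FW NumberField
open Pool.Agent.DI (io ofC io_inj exists_io io_ofC ofC_io VP MP UP TP ex sqr sqr_sq kap)

/-! ## The ring `O` -/

/-- `D = 8 k - 1` is squarefree and positive. -/
class SqK (k : ℕ) : Prop where
  pos : 0 < k
  sqf : Squarefree (8 * k - 1)

/-- The discriminant is `- D`. -/
def Dk (k : ℕ) : ℕ := 8 * k - 1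

/-- The ring `O = ℤ[w]`, `w ^ 2 = w - 2 k`. -/
abbrev OO (k : ℕ) : Type := QuadraticAlgebra ℤ (-(2 * (k : ℤ))) 1

variable {k : ℕ}

/-- `w`. -/
def wI (k : ℕ) : OO k := ⟨0, 1⟩

/-- `√-D = 2 w - 1`. -/
def sD (k : ℕ) : OO k := ⟨-1, 2⟩

/-- Complex conjugation on `O`. -/
def cjO (v : OO k) : OO k := ⟨v.re + v.im, -v.im⟩

/-- The norm. -/
def Nm (v : OO k) : ℤ := v.re ^ 2 + v.re * v.im + 2 * k * v.im ^ 2

/-- The quadratic residue symbol modulo `√-D` (`w` is `1/2` modulo `√-D`, and `(2/D) = 1`). -/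
def eps (v : OO k) : ℤ := jacobiSym (2 * v.re + v.im) (Dk k)

/-- `v` is prime to `N`. -/
def Cop (v : OO k) (N : ℕ) : Prop := IsCoprime (Nm v) (N : ℤ)

/-- `𝔭 = (2, w)`. -/
def pp (k : ℕ) : Ideal (OO k) := Ideal.span {2, wI k}

/-- `𝔭̄ = (2, 1 - w)`. -/
def ppb (k : ℕ) : Ideal (OO k) := Ideal.span {2, 1 - wI k}

/-- The norm of an ideal (`0` for the zero ideal). -/
def NI (b : Ideal (OO k)) : ℕ := Nat.card (OO k ⧸ b)

/-- `b` is prime to `N`. -/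
def PrI (b : Ideal (OO k)) (N : ℕ) : Prop := b ⊔ Ideal.span {(N : OO k)} = ⊤

/-- The conjugate ideal. -/
def cjI (b : Ideal (OO k)) : Ideal (OO k) := Ideal.span (cjO '' (b : Set (OO k)))

/-- `a` and `a'` have the same class in the ray class group modulo `N`. -/
def Ray (N : ℕ) (a a' : Ideal (OO k)) : Prop :=
  ∃ α α' : OO k, α ≠ 0 ∧ α' ≠ 0 ∧ Cop α N ∧ Cop α' N ∧ (N : OO k) ∣ α - α' ∧
    Ideal.span {α} * a = Ideal.span {α'} * a'

/-! ## The complex side -/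

/-- `w` as a complex number. -/
def wC (k : ℕ) : ℂ := ⟨1 / 2, √(Dk k : ℝ) / 2⟩

theorem wC_sq' (k : ℕ) (hk : 0 < k) : wC k ^ 2 = wC k - 2 * k := by
  have hD : ((Dk k : ℕ) : ℝ) = 8 * k - 1 := by
    have h1 : 1 ≤ 8 * k := by omega
    unfold Dk
    rw [Nat.cast_sub h1]
    push_cast
    ring
  have h0 : (0 : ℝ) ≤ (Dk k : ℝ) := Nat.cast_nonneg _
  have h : (√(Dk k : ℝ) : ℝ) * √(Dk k : ℝ) = 8 * k - 1 := by
    rw [Real.mul_self_sqrt h0, hD]
  apply Complex.ext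
  · simp only [wC, sq, Complex.mul_re, Complex.sub_re, Complex.re_ofNat, Complex.im_ofNat,
      Complex.natCast_re, Complex.natCast_im]
    nlinarith [h]
  · simp only [wC, sq, Complex.mul_im, Complex.sub_im, Complex.im_ofNat, Complex.re_ofNat,
      Complex.natCast_re, Complex.natCast_im, Complex.mul_im]
    ring

/-- The value of `v` in a ring, at a root `t` of `t ^ 2 = t - 2 k`. -/
def evO {R : Type} [CommRing R] (t : R) (ht : t ^ 2 = t - 2 * k) : OO k →+* R where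
  toFun v := v.re + v.im * t
  map_one' := by
    change ((1 : ℤ) : R) + ((0 : ℤ) : R) * t = 1
    simp
  map_mul' v u := by
    have h1 : (v * u).re = v.re * u.re + -(2 * (k : ℤ)) * v.im * u.im := QuadraticAlgebra.re_mul v u
    have h2 : (v * u).im = v.re * u.im + v.im * u.re + 1 * v.im * u.im := QuadraticAlgebra.im_mul v u
    rw [h1, h2]
    push_cast
    linear_combination (-(v.im : R) * u.im) * ht
  map_zero' := by
    change ((0 : ℤ) : R) + ((0 : ℤ) : R) * t = 0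
    simp
  map_add' v u := by
    have h1 : (v + u).re = v.re + u.re := rfl
    have h2 : (v + u).im = v.im + u.im := rfl
    rw [h1, h2]
    push_cast
    ring

open Classical in
/-- `v` as a complex number. -/
def toC (v : OO k) : ℂ := v.re + v.im * wC k

theorem toC_apply (v : OO k) : toC v = v.re + v.im * wC k := rfl

/-- The lattice `b⁻¹ = {z | b z ⊆ O}`. -/
def Lam (b : Ideal (OO k)) : Set ℂ := {z | ∀ v ∈ b, ∃ u : OO k, toC v * z = toC u}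

/-- `z` is a torsion point: `z ∈ K`. -/
def Tor (k : ℕ) (z : ℂ) : Prop := ∃ (v : OO k) (n : ℕ), 0 < n ∧ z = toC v / n

/-- A pair of periods of the lattice `Lam b`. -/
def LP (b : Ideal (OO k)) : PeriodPair := by
  classical
  exact if h : ∃ L : PeriodPair, (L.lattice : Set ℂ) = Lam b then h.choose else DI.LO

/-- `℘(z; Lam b)`. -/
def wpC (b : Ideal (OO k)) (z : ℂ) : ℂ := (LP b).weierstrassP z

/-- `℘'(z; Lam b)`. -/
def wdC (b : Ideal (OO k)) (z : ℂ) : ℂ := (LP b).derivWeierstrassP z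

/-- A generator of `Lam (m b)` over `Lam b`, for `m = 𝔭`, `𝔭̄`, `𝔭̄²` (in general: an element of
`Lam (m b)` which is not in `Lam (m' b)` for every proper divisor `m'` of `m`). -/
def gen (m b : Ideal (OO k)) : ℂ := by
  classical
  exact if h : ∃ z ∈ Lam (m * b), ∀ m' : Ideal (OO k), m < m' → z ∉ Lam (m' * b) then h.choose else 0

/-- The point `T` of order `𝔭`. -/
def ptT (b : Ideal (OO k)) : ℂ := gen (pp k) b

/-- The point `S` of order `𝔭̄`. -/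
def ptS (b : Ideal (OO k)) : ℂ := gen (ppb k) b

/-- A point `t` of order `𝔭̄²`. -/
def ptt (b : Ideal (OO k)) : ℂ := gen (ppb k ^ 2) b

/-- `s² = 4 (℘(S) - ℘(T))`. -/
def s2 (b : Ideal (OO k)) : ℂ := 4 * (wpC b (ptS b) - wpC b (ptT b))

/-- The coordinate `X = (℘(z) - ℘(S))/s²`. -/
def XC (b : Ideal (OO k)) (z : ℂ) : ℂ := (wpC b z - wpC b (ptS b)) / s2 b

/-- The parameter `𝒟`; `X(S + T) = - 4 𝒟`. -/
def DC (b : Ideal (OO k)) : ℂ := -XC b (ptS b + ptT b) / 4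

/-- `θ = X(t)`, `θ² = 𝒟`. -/
def ThC (b : Ideal (OO k)) : ℂ := XC b (ptt b)

/-- The regularised series `K_t(z)` of the lattice `Lam b`. -/
def KtC (b : Ideal (OO k)) (t : ℝ) (z : ℂ) : ℂ :=
  ∑' v : (LP b).lattice, (z + v)⁻¹ * (Real.exp (-t * ‖z + v‖ ^ 2) : ℝ)

/-- The periodic function `K(z) = lim K_t(z)` of the lattice `Lam b`. -/
def KC (b : Ideal (OO k)) (z : ℂ) : ℂ := limUnder (𝓝[>] (0 : ℝ)) (fun t => KtC b t z)

/-! ## The algebraic side -/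

/-- `w` in `Om`. -/
def wO (k : ℕ) : Om := ofC (wC k)

/-- The embedding `O → Om`. -/
def toO (v : OO k) : Om := v.re + v.im * wO k

/-- The field `K = ℚ(√-D)`. -/
def KQ (k : ℕ) : IntermediateField ℚ Om := IntermediateField.adjoin ℚ {wO k}

/-- The group `Gal(Om/K)`. -/
def GK (k : ℕ) : Subgroup Gal(Om/ℚ) := (KQ k).fixingSubgroup

/-- The algebraic number `X(z)`. -/
def xO (b : Ideal (OO k)) (z : ℂ) : Om := ofC (XC b z)

/-- The algebraic number `𝒟`. -/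
def dO (b : Ideal (OO k)) : Om := ofC (DC b)

/-- The algebraic number `θ`. -/
def tO (b : Ideal (OO k)) : Om := ofC (ThC b)

/-- `P` is a nonzero prime of `ZZ`. -/
def Npr (P : Ideal ZZ) : Prop := P.IsPrime ∧ P ≠ ⊥

/-- `P` is above `𝔭 = (2, w)`. -/
def AbP (k : ℕ) (P : Ideal ZZ) : Prop := Npr P ∧ MP P 2 ∧ MP P (wO k)

/-- `P` is above `𝔭̄ = (2, 1 - w)`. -/
def AbPb (k : ℕ) (P : Ideal ZZ) : Prop := Npr P ∧ MP P 2 ∧ MP P (1 - wO k)

/-- `τ` is a Frobenius element at `Q` for the exponent `l`. -/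
def Fro (Q : Ideal ZZ) (l : ℕ) (τ : Gal(Om/ℚ)) : Prop := ∀ b : ZZ, τ • b - b ^ l ∈ Q

/-- **The Galois action.** `τ` acts on the `N`-torsion of all the curves `ℂ / Lam b` as the identity map
from `ℂ / Lam b` to `ℂ / Lam (a b)`. -/
structure Psi (τ : Gal(Om/ℚ)) (N : ℕ) (a : Ideal (OO k)) : Prop where
  ne : a ≠ ⊥
  cop : PrI a N
  dd : ∀ b : Ideal (OO k), b ≠ ⊥ → τ (dO b) = dO (a * b)
  xx : ∀ b : Ideal (OO k), b ≠ ⊥ → ∀ z : ℂ, (N : ℂ) * z ∈ Lam b → τ (xO b z) = xO (a * b) z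

/-! ## The framing and the smoothed functions -/

/-- The framing `fr(b) = ℘''(1/f)/℘'(1/f)` of the lattice `Lam b`, `b` prime to `f`. -/
def fr (f : ℕ) (b : Ideal (OO k)) : ℂ := by
  classical
  exact if b ≠ ⊥ ∧ PrI b f then (6 * wpC b (1 / f) ^ 2 - (LP b).g₂ / 2) / wdC b (1 / f) else 0

/-- The algebraic number `fr(b')/fr(b)`. -/
def rO (f : ℕ) (b b' : Ideal (OO k)) : Om := ofC (fr f b' / fr f b)

/-- The function `℘'/fr³`, an element of `Om` for torsion points. -/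
def vO (f : ℕ) (b : Ideal (OO k)) (z : ℂ) : Om := ofC (wdC b z / fr f b ^ 3)

/-- The smoothed function `g(b, z) = (K(z; Lam (m b)) - N m K(z; Lam b))/fr(b)`. -/
def gC (f : ℕ) (m b : Ideal (OO k)) (z : ℂ) : ℂ := (KC (m * b) z - NI m * KC b z) / fr f b

/-- The algebraic number `g(b, z)`. -/
def gO (f : ℕ) (m b : Ideal (OO k)) (z : ℂ) : Om := ofC (gC f m b z)

/-! ## Theta series -/

/-- The theta series `∑ v⁻¹ e(f² N b |v|² z)`, `v` in `a/f + Lam b`. -/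
def Tc (f : ℕ) (b : Ideal (OO k)) (a : ℤ) (z : ℂ) : ℂ :=
  ∑' v : (LP b).lattice, ((a : ℂ) / f + v)⁻¹ * ex (f ^ 2 * NI b * ‖(a : ℂ) / f + v‖ ^ 2 * z)

/-- The smoothed theta series. -/
def ThM (f : ℕ) (m b : Ideal (OO k)) (z : ℂ) : ℂ :=
  (Tc f (m * b) 1 z - NI m * Tc f b 1 (NI m * z)) / fr f b

/-- `lim ThM(r + i y)`. -/
def hM (f : ℕ) (m b : Ideal (OO k)) (r : ℚ) : ℂ :=
  limUnder (𝓝[>] (0 : ℝ)) (fun y => ThM f m b (r + y * Complex.I))

/-- The algebraic number `hM`. -/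
def etaM (f : ℕ) (m b : Ideal (OO k)) (r : ℚ) : Om := ofC (hM f m b r)

/-- A system of representatives of the ray class group modulo `f`. -/
structure IsRC (f : ℕ) (R : Finset (Ideal (OO k))) : Prop where
  mem : ∀ b ∈ R, b ≠ ⊥ ∧ PrI b f
  ex : ∀ b : Ideal (OO k), b ≠ ⊥ → PrI b f → ∃ b' ∈ R, Ray f b b'
  uni : ∀ b ∈ R, ∀ b' ∈ R, Ray f b b' → b = b'

/-- A class function modulo `f`, zero outside of the ideals prime to `f`. -/
structure IsCl {R : Type} [Zero R] (f : ℕ) (ω : Ideal (OO k) → R) : Prop where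
  zero : ∀ b : Ideal (OO k), b = ⊥ ∨ ¬ PrI b f → ω b = 0
  ray : ∀ b b' : Ideal (OO k), b ≠ ⊥ → b' ≠ ⊥ → PrI b f → PrI b' f → Ray f b b' → ω b = ω b'

/-- A character of odd order of the ray class group modulo `f`. -/
structure IsChi (f : ℕ) (χ : Ideal (OO k) → Om) : Prop extends IsCl f χ where
  mul : ∀ a b : Ideal (OO k), χ (a * b) = χ a * χ b
  odd : ∃ m : ℕ, Odd m ∧ ∀ b : Ideal (OO k), b ≠ ⊥ → PrI b f → χ b ^ m = 1

/-- `η_χ(r) = ∑ χ(b) η_b(r)`, the sum over the ray class group. -/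
def etaX (f : ℕ) (m : Ideal (OO k)) (R : Finset (Ideal (OO k))) (χ : Ideal (OO k) → Om) (r : ℚ) :
    Om := ∑ b ∈ R, χ b * etaM f m b r

/-! ## Fields -/

/-- The field fixed by all `τ` in `Gal(Om/K)` which act on the `N`-torsion as an ideal in `H`. -/
def FixI (N : ℕ) (H : Ideal (OO k) → Prop) : IntermediateField ℚ Om where
  carrier := {x | ∀ τ ∈ GK k, ∀ a : Ideal (OO k), Psi τ N a → H a → τ x = x}
  mul_mem' := by
    intro x y hx hy τ hτ a h1 h2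
    rw [map_mul, hx τ hτ a h1 h2, hy τ hτ a h1 h2]
  one_mem' := fun τ _ _ _ _ => map_one τ
  add_mem' := by
    intro x y hx hy τ hτ a h1 h2
    rw [map_add, hx τ hτ a h1 h2, hy τ hτ a h1 h2]
  zero_mem' := fun τ _ _ _ _ => map_zero τ
  algebraMap_mem' := fun r τ _ _ _ _ => τ.commutes r
  inv_mem' := by
    intro x hx τ hτ a h1 h2
    rw [map_inv₀, hx τ hτ a h1 h2]

/-- `v` is in the 2-primary part of `(O/f)^*`. -/
def Hf (f : ℕ) (v : OO k) : Prop := Cop v f ∧ ∃ j : ℕ, (f : OO k) ∣ v ^ 2 ^ j - 1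

/-- `v` is in `H_N`: in `H_f` modulo `f`, and the norm is `±1` modulo `2 ^ N`. -/
def HN (f N : ℕ) (v : OO k) : Prop :=
  Hf f v ∧ ((2 : ℤ) ^ N ∣ Nm v - 1 ∨ (2 : ℤ) ^ N ∣ Nm v + 1)

/-- The 2-primary part of the ray class group modulo `f`. -/
def H2 (f : ℕ) (a : Ideal (OO k)) : Prop := ∃ j : ℕ, Ray f (a ^ 2 ^ j) ⊤

/-- The classes in `H2 f` whose norm is `±1` modulo `2 ^ N`. -/
def H2N (f N : ℕ) (a : Ideal (OO k)) : Prop :=
  H2 f a ∧ ((2 : ℤ) ^ N ∣ NI a - 1 ∨ (2 : ℤ) ^ N ∣ NI a + 1)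

/-- The classes of the principal ideals `(v)`, `v` in `H_f`. -/
def HP (f : ℕ) (a : Ideal (OO k)) : Prop := ∃ v : OO k, v ≠ 0 ∧ Hf f v ∧ Ray f a (Ideal.span {v})

/-- The classes of the principal ideals `(v)`, `v` in `H_N`. -/
def HPN (f N : ℕ) (a : Ideal (OO k)) : Prop :=
  ∃ v : OO k, v ≠ 0 ∧ HN f N v ∧ Cop v (2 * f) ∧ Ray (f * 2 ^ N) a (Ideal.span {v})

/-- The field `L` for `f`: the maximal subfield of odd degree over `K` of the ray class field. -/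
def Lf (k f : ℕ) : IntermediateField ℚ Om := FixI f (H2 (k := k) f)

/-- The field `L_n = L ℚ_n`, `n = N - 2`. -/
def Ln (k f N : ℕ) : IntermediateField ℚ Om := FixI (f * 2 ^ N) (H2N (k := k) f N)

/-- The field `L'` for `f`; it contains the Hilbert class field. -/
def Mf (k f : ℕ) : IntermediateField ℚ Om := FixI f (HP (k := k) f)

/-- The field `L'_n = L' ℚ_n`, `n = N - 2`. -/
def Mn (k f N : ℕ) : IntermediateField ℚ Om := FixI (f * 2 ^ N) (HPN (k := k) f N)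

/-! ## Elliptic units -/

/-- A half system of `Lam (m b) / Lam b` without `0`. -/
structure IsHalf (m b : Ideal (OO k)) (S : Finset ℂ) : Prop where
  mem : ∀ u ∈ S, u ∈ Lam (m * b) ∧ u ∉ Lam b
  ex : ∀ z ∈ Lam (m * b), z ∉ Lam b → ∃ u ∈ S, z - u ∈ Lam b ∨ z + u ∈ Lam b
  uni : ∀ u ∈ S, ∀ u' ∈ S, (u - u' ∈ Lam b ∨ u + u' ∈ Lam b) → u = u'

/-- A chosen half system. -/
def hs (m b : Ideal (OO k)) : Finset ℂ := by
  classical
  exact if h : ∃ S, IsHalf m b S then h.choose else ∅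

/-- `W(u)² = X (X + 4 𝒟)(4 X + 1)`. -/
def W2 (b : Ideal (OO k)) (u : ℂ) : Om := xO b u * (xO b u + 4 * dO b) * (4 * xO b u + 1)

/-- The function `Θ_m(b, z) = (∏ W(u)²/(X(z) - X(u))³)³`, the product over `(E[m] - 0)/±1`. -/
def Theta (m b : Ideal (OO k)) (z : ℂ) : Om :=
  ∏ u ∈ hs m b, (W2 b u * ((xO b z - xO b u) ^ 3)⁻¹) ^ 3

/-- A set of representatives of `H_N / ±1` modulo `f 2^N`. -/
structure IsRep (f N : ℕ) (T : Finset (OO k)) : Prop where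
  mem : ∀ h ∈ T, HN f N h ∧ Cop h (2 * f)
  ex : ∀ v : OO k, HN f N v → Cop v (2 * f) →
    ∃ h ∈ T, ((f * 2 ^ N : ℕ) : OO k) ∣ v - h ∨ ((f * 2 ^ N : ℕ) : OO k) ∣ v + h
  uni : ∀ h ∈ T, ∀ h' ∈ T,
    (((f * 2 ^ N : ℕ) : OO k) ∣ h - h' ∨ ((f * 2 ^ N : ℕ) : OO k) ∣ h + h') → h = h'

/-- The elliptic unit `u'_n(b)`, `n = N - 2`. -/
def uN (f N : ℕ) (m : Ideal (OO k)) (T : Finset (OO k)) (b : Ideal (OO k)) : Om :=
  ∏ h ∈ T, Theta m b (toC h / (f * 2 ^ N : ℕ))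

/-! ## The theorem -/

/-- `j(O)`, divided by `1728`. -/
def jC (k : ℕ) : ℂ :=
  (LP (⊤ : Ideal (OO k))).g₂ ^ 3 /
    ((LP (⊤ : Ideal (OO k))).g₂ ^ 3 - 27 * (LP (⊤ : Ideal (OO k))).g₃ ^ 2)

/-- The Weber function `h(z) = (g₂ g₃/(g₂³ - 27 g₃²)) ℘(z; O)`. -/
def weC (k : ℕ) (z : ℂ) : ℂ :=
  (LP (⊤ : Ideal (OO k))).g₂ * (LP (⊤ : Ideal (OO k))).g₃ /
    ((LP (⊤ : Ideal (OO k))).g₂ ^ 3 - 27 * (LP (⊤ : Ideal (OO k))).g₃ ^ 2) *
      wpC (⊤ : Ideal (OO k)) z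

/-- The field generated by `√-D`, `j(O)` and the values of the Weber function at all torsion points:
the maximal abelian extension of `K` (theorem of Weber, Takagi, Hasse; not used). -/
def Wf (k : ℕ) : IntermediateField ℚ Om :=
  IntermediateField.adjoin ℚ ({wO k, ofC (jC k)} ∪
    {x : Om | ∃ z : ℂ, Tor k z ∧ z ∉ Lam (⊤ : Ideal (OO k)) ∧ x = ofC (weC k z)})

/-- **Theorem DK.** -/
def ThmDK : Prop :=
  ∀ (k : ℕ) [SqK k] (F : IntermediateField ℚ Om), FiniteDimensional ℚ F → F ≤ Wf k →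
    XFinGen 2 (cyc 2 F)

end Pool.Agent.DK
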