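import Pool.Agent.Lib.FW.SpecFr
import Pool.Agent.Lib.FW.Fr.FrE
import Pool.Agent.Lib.FW.Fr.FrC
import Pool.Agent.Lib.FW.R.Lie
import Pool.Agent.Lib.ZD.AuxP
import Pool.Agent.Lib.ZD.Deg
import Pool.Agent.Lib.ZD.Frob
import Pool.Agent.Lib.MuZ.PL

/-!
# Theorem DK: generation by Frobenius elements of degree one (author helper21, after helper94)

`K` is a number field inside `Om`, `H` an open subgroup of `Gal(Om/K)` which contains all Frobenius
elements at the primes of degree one of `K` outside `M`. Then `H = Gal(Om/K)`.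
-/

set_option autoImplicit false

open scoped Pointwise

noncomputable section

namespace Pool.Agent.DK

open Pool.Agent.MuZ Pool.Agent.FW NumberField IsDedekindDomain

/-- The extension `Ω/ℚ` is Galois (for the default algebra structure). -/
private theorem Gen_isGalois : IsGalois ℚ Om := by
  have h : @IsGalois ℚ _ Om _ (AlgebraicClosure.instAlgebra ℚ) :=
    @IsAlgClosure.isGalois ℚ Om _ _ (AlgebraicClosure.instAlgebra ℚ) _ _
  have hA : (DivisionRing.toRatAlgebra : Algebra ℚ Om) = AlgebraicClosure.instAlgebra ℚ :=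
    Subsingleton.elim _ _
  rw [hA]
  exact h

/-- The field of an open subgroup. -/
private theorem Gen_field (K : IntermediateField ℚ Om) (H : Subgroup Gal(Om/ℚ))
    (O : OpenSubgroup Gal(Om/ℚ)) (hK : IsOpen (K.fixingSubgroup : Set Gal(Om/ℚ)))
    (hHK : H ≤ K.fixingSubgroup)
    (hO : K.fixingSubgroup ⊓ (O : Subgroup Gal(Om/ℚ)) ≤ H)
    (hn : ∀ g ∈ K.fixingSubgroup, ∀ h ∈ H, g * h * g⁻¹ ∈ H) :
    ∃ M : IntermediateField ℚ Om, K ≤ M ∧ FiniteDimensional ℚ M ∧ M.fixingSubgroup = H ∧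
      ∀ σ ∈ K.fixingSubgroup, ∀ x ∈ M, σ x ∈ M := by
  have hGal : IsGalois ℚ Om := Gen_isGalois
  have hopen : IsOpen (H : Set Gal(Om/ℚ)) := by
    refine Subgroup.isOpen_mono hO ?_
    rw [Subgroup.coe_inf]
    exact hK.inter O.isOpen
  have hclosed : IsClosed (H : Set Gal(Om/ℚ)) := Subgroup.isClosed_of_isOpen H hopen
  have hM : (IntermediateField.fixedField H).fixingSubgroup = H :=
    InfiniteGalois.fixingSubgroup_fixedField (k := ℚ) (K := Om) ⟨H, hclosed⟩
  have hfix : ∀ σ ∈ H, ∀ x ∈ IntermediateField.fixedField H, σ x = x := by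
    intro σ hσ x hx
    exact (IntermediateField.mem_fixedField_iff H x).1 hx σ hσ
  refine ⟨IntermediateField.fixedField H, ?_, ?_, hM, ?_⟩
  · intro x hx
    rw [IntermediateField.mem_fixedField_iff]
    intro σ hσ
    exact (IntermediateField.mem_fixingSubgroup_iff K σ).1 (hHK hσ) x hx
  · rw [← InfiniteGalois.isOpen_iff_finite, hM]
    exact hopen
  · intro σ hσ x hx
    rw [IntermediateField.mem_fixedField_iff]
    intro τ hτ
    have hmem : σ⁻¹ * τ * σ ∈ H := by
      have := hn σ⁻¹ (inv_mem hσ) τ hτ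
      rwa [inv_inv] at this
    have h5 := hfix _ hmem x hx
    have h6 : τ (σ x) = σ ((σ⁻¹ * τ * σ) x) := by
      rw [← AlgEquiv.mul_apply, ← AlgEquiv.mul_apply]
      congr 1
      group
    rw [h6, h5]

/-- A field which is stable under `Gal(Ω/K)` is Galois over `K`. -/
private theorem Gen_gal (K M : IntermediateField ℚ Om) (hKM : K ≤ M)
    (hst : ∀ σ ∈ K.fixingSubgroup, ∀ x ∈ M, σ x ∈ M) :
    letI := incA hKM
    IsGalois K M := by
  have hG : IsGalois ℚ Om := Gen_isGalois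
  have : Normal K Om := Normal.tower_top_of_normal ℚ K Om
  have : IsGalois K Om := ⟨⟩
  let _ : Algebra K M := incA hKM
  have hST : IsScalarTower K M Om := IsScalarTower.of_algebraMap_eq fun x => rfl
  let L : IntermediateField K Om := IntermediateField.extendScalars hKM
  have hL : ∀ x : Om, x ∈ L ↔ x ∈ M := fun x => IntermediateField.mem_extendScalars hKM
  let e : L ≃ₐ[K] M :=
    { toFun := fun x => ⟨(x : Om), (hL _).1 x.2⟩
      invFun := fun x => ⟨(x : Om), (hL _).2 x.2⟩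
      left_inv := fun _ => rfl
      right_inv := fun _ => rfl
      map_mul' := fun _ _ => rfl
      map_add' := fun _ _ => rfl
      commutes' := fun _ => rfl }
  have hres : ∀ σ : Gal(Om/K), (σ.restrictScalars ℚ : Gal(Om/ℚ)) ∈ K.fixingSubgroup := by
    intro σ
    rw [IntermediateField.mem_fixingSubgroup_iff]
    intro x hx
    exact σ.commutes ⟨x, hx⟩
  have hNorm : Normal K L := by
    rw [IntermediateField.normal_iff_forall_map_le']
    rintro σ x ⟨y, hy, rfl⟩
    exact (hL _).2 (hst _ (hres σ) _ ((hL y).1 hy))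
  have hGal : IsGalois K L := ⟨⟩
  exact IsGalois.of_algEquiv e

/-- A proper extension has degree at least two. -/
private theorem Gen_deg (K M : IntermediateField ℚ Om) [NumberField K] [NumberField M]
    (hKM : K ≤ M) (h : ¬ M ≤ K) :
    letI := incA hKM
    2 ≤ Module.finrank K M := by
  let _ : Algebra K M := incA hKM
  have hfin : Module.Finite K M := Module.Finite.of_restrictScalars_finite ℚ K M
  have h0 : 0 < Module.finrank K M := Module.finrank_pos
  by_contra h1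
  have h2 : Module.finrank K M = 1 := by omega
  apply h
  intro x hx
  have h3 := Subalgebra.bot_eq_top_of_finrank_eq_one h2
  have h4 : (⟨x, hx⟩ : M) ∈ (⊥ : Subalgebra K M) := by
    rw [h3]
    exact Algebra.mem_top
  obtain ⟨y, hy⟩ := Algebra.mem_bot.1 h4
  have h5 : (y : Om) = x := by
    rw [← incA_coe hKM y]
    exact congrArg Subtype.val hy
  rw [← h5]
  exact y.2

/-- **Generation by Frobenius elements, normal subgroups.** -/
theorem gen_normal (K : IntermediateField ℚ Om) [NumberField K] (H : Subgroup Gal(Om/ℚ))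
    (O : OpenSubgroup Gal(Om/ℚ)) (M : ℕ) (hHK : H ≤ K.fixingSubgroup)
    (hO : K.fixingSubgroup ⊓ (O : Subgroup Gal(Om/ℚ)) ≤ H)
    (hn : ∀ g ∈ K.fixingSubgroup, ∀ h ∈ H, g * h * g⁻¹ ∈ H) (hM : 0 < M)
    (hFr : ∀ (l : ℕ) (Q : Ideal ZZ) (τ : Gal(Om/ℚ)), l.Prime → ¬ l ∣ M → Q.IsPrime → Q ≠ ⊥ →
      (l : ZZ) ∈ Q → Nat.card (𝓞 K ⧸ Q.comap (iO K)) = l → τ ∈ K.fixingSubgroup →
      (∀ b : ZZ, τ • b - b ^ l ∈ Q) → τ ∈ H) :
    K.fixingSubgroup ≤ H := by
  obtain ⟨hLie1, hLie2, -⟩ := tLie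
  have hopen : IsOpen (K.fixingSubgroup : Set Gal(Om/ℚ)) :=
    IntermediateField.fixingSubgroup_isOpen K
  by_contra hcon
  obtain ⟨L, hKL, hLfin, hLfix, hLst⟩ := Gen_field K H O hopen hHK hO hn
  have hNL : NumberField L := ⟨⟩
  have hLK : ¬ L ≤ K := by
    intro h
    apply hcon
    rw [← hLfix]
    exact IntermediateField.fixingSubgroup_antitone h
  have hGal := Gen_gal K L hKL hLst
  have hdeg := Gen_deg K L hKL hLK
  let _ : Algebra K L := incA hKL
  have hS := ZD.Dn_Spl K L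
  set n := Module.finrank K L with hn'
  have hM0 : (M : 𝓞 K) ≠ 0 := by exact_mod_cast hM.ne'
  have hB1 := ZD.finite_mem (M : 𝓞 K) hM0
  have hB2 := ZD.finite_ram (K := K) (L := L)
  have hU := hS.up.union ((ZD.Dn_finite hB1).up.union (ZD.Dn_finite hB2).up)
  have hlt : 1 / (n : ℝ) + (0 + 0) < 1 := by
    have h2 : (2 : ℝ) ≤ n := by exact_mod_cast hdeg
    have h3 : 1 / (n : ℝ) ≤ 1 / 2 := one_div_le_one_div_of_le (by norm_num) h2
    linarith
  obtain ⟨v, -, hv, hprime⟩ := (ZD.infinite_deg_one (ZD.Dn_univ (K := K)) hU hlt).nonempty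
  rw [Set.mem_union, Set.mem_union, not_or, not_or] at hv
  obtain ⟨hvS, hvM, hvR⟩ := hv
  obtain ⟨P, hP, hPb, hPv⟩ := hLie1 K v
  obtain ⟨σ, hσ, hσf⟩ := tFrE K P hP hPb
  have hcard : Nat.card (𝓞 K ⧸ P.comap (iO K)) = ZD.nm v := by
    rw [← hPv]
    rfl
  rw [hcard] at hσf
  have hlv : ((ZD.nm v : ℕ) : 𝓞 K) ∈ v.asIdeal := Ideal.absNorm_mem v.asIdeal
  have hlP : ((ZD.nm v : ℕ) : ZZ) ∈ P := by
    rw [hPv, Ideal.mem_comap, map_natCast] at hlv
    exact hlv
  have hlM : ¬ ZD.nm v ∣ M := by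
    rintro ⟨c, hc⟩
    apply hvM
    change (M : 𝓞 K) ∈ v.asIdeal
    rw [hPv, Ideal.mem_comap, map_natCast, hc]
    push_cast
    exact P.mul_mem_right _ hlP
  have hσH : σ ∈ H := hFr (ZD.nm v) P σ hprime hlM hP hPb hlP hcard hσ hσf
  have hσL : σ ∈ L.fixingSubgroup := by
    rw [hLfix]
    exact hσH
  have hIs : IsFr K P σ := ⟨hσ, by rw [hcard]; exact hσf⟩
  obtain ⟨hc2, -⟩ := tFrC K L hKL P hP hPb σ hIs hσL
  obtain ⟨w, -, -, hw⟩ := hLie2 L P hP hPb
  apply hvS
  refine ZD.mem_Spl_of_nm hvR (u := w) ?_ ?_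
  · rw [ZD.mem_abv, hw, hPv, Ideal.comap_comap]
    rfl
  · have h7 : ZD.nm w = Nat.card (𝓞 L ⧸ P.comap (iO L)) := by
      rw [← hw]
      rfl
    rw [h7, hc2, hcard]

/-- **Generation by Frobenius elements.** -/
theorem gen_frob (K : IntermediateField ℚ Om) [NumberField K] (H : Subgroup Gal(Om/ℚ))
    (O : OpenSubgroup Gal(Om/ℚ)) (M : ℕ)
    (hO : K.fixingSubgroup ⊓ (O : Subgroup Gal(Om/ℚ)) ≤ H) (hM : 0 < M)
    (hFr : ∀ (l : ℕ) (Q : Ideal ZZ) (τ : Gal(Om/ℚ)), l.Prime → ¬ l ∣ M → Q.IsPrime → Q ≠ ⊥ →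
      (l : ZZ) ∈ Q → Nat.card (𝓞 K ⧸ Q.comap (iO K)) = l → τ ∈ K.fixingSubgroup →
      (∀ b : ZZ, τ • b - b ^ l ∈ Q) → τ ∈ H) :
    K.fixingSubgroup ≤ H := by
  have hGal : IsGalois ℚ Om := Gen_isGalois
  obtain ⟨V, hV⟩ := PLAux.exists_nrm O
  let H' : Subgroup Gal(Om/ℚ) :=
    { carrier := {h | h ∈ K.fixingSubgroup ∧ ∀ g ∈ K.fixingSubgroup, g * h * g⁻¹ ∈ H}
      one_mem' := ⟨one_mem _, fun g _ => by simp⟩
      mul_mem' := by
        rintro a b ⟨ha, ha'⟩ ⟨hb, hb'⟩
        refine ⟨mul_mem ha hb, fun g hg => ?_⟩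
        have h1 := mul_mem (ha' g hg) (hb' g hg)
        have h2 : g * a * g⁻¹ * (g * b * g⁻¹) = g * (a * b) * g⁻¹ := by group
        rw [← h2]
        exact h1
      inv_mem' := by
        rintro a ⟨ha, ha'⟩
        refine ⟨inv_mem ha, fun g hg => ?_⟩
        have h1 := inv_mem (ha' g hg)
        have h2 : (g * a * g⁻¹)⁻¹ = g * a⁻¹ * g⁻¹ := by group
        rw [← h2]
        exact h1 }
  have hH' : H' ≤ H := by
    intro h hh
    have h1 := hh.2 1 (one_mem _)
    simpa using h1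
  refine le_trans (gen_normal K H' ⟨V.toSubgroup, V.isOpen'⟩ M (fun h hh => hh.1) ?_ ?_ hM ?_) hH'
  · rintro h ⟨h1, h2⟩
    refine ⟨h1, fun g hg => hO ⟨?_, hV _ ?_⟩⟩
    · exact (K.fixingSubgroup).mul_mem ((K.fixingSubgroup).mul_mem hg h1) ((K.fixingSubgroup).inv_mem hg)
    · exact V.isNormal'.conj_mem h h2 g
  · rintro g hg h ⟨h1, h2⟩
    refine ⟨mul_mem (mul_mem hg h1) (inv_mem hg), fun g' hg' => ?_⟩
    have h3 := h2 (g' * g) (mul_mem hg' hg)
    have h4 : g' * g * h * (g' * g)⁻¹ = g' * (g * h * g⁻¹) * g'⁻¹ := by group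
    rw [← h4]
    exact h3
  · intro l Q τ hl hlM hQ hQb hlQ hcard hτ hτf
    refine ⟨hτ, fun g hg => ?_⟩
    refine hFr l (g • Q) (g * τ * g⁻¹) hl hlM ?_ ?_ ?_ ?_ (mul_mem (mul_mem hg hτ) (inv_mem hg)) ?_
    · exact Ideal.IsPrime.smul g
    · intro h
      apply hQb
      rw [eq_bot_iff]
      intro x hx
      have h1 : g • x ∈ g • Q := Ideal.smul_mem_pointwise_smul g x Q hx
      rw [h, Ideal.mem_bot] at h1
      rw [Ideal.mem_bot]
      exact (smul_eq_zero_iff_eq g).1 h1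
    · have h1 : g • (l : ZZ) ∈ g • Q := Ideal.smul_mem_pointwise_smul g _ Q hlQ
      have h2 : g • (l : ZZ) = (l : ZZ) := map_natCast (MulSemiringAction.toRingHom _ ZZ g) l
      rwa [h2] at h1
    · have h1 : (g • Q).comap (iO K) = Q.comap (iO K) := by
        ext x
        rw [Ideal.mem_comap, Ideal.mem_comap]
        have h2 : g • iO K x = iO K x := by
          apply Subtype.ext
          exact (IntermediateField.mem_fixingSubgroup_iff K g).1 hg _ (x : K).2
        constructor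
        · intro h3
          rw [← h2] at h3
          exact Ideal.smul_mem_pointwise_smul_iff.1 h3
        · intro h3
          rw [← h2]
          exact Ideal.smul_mem_pointwise_smul g _ Q h3
      rw [h1]
      exact hcard
    · intro b
      have h1 := Ideal.smul_mem_pointwise_smul g _ Q (hτf (g⁻¹ • b))
      have h2 : g • (τ • g⁻¹ • b - (g⁻¹ • b) ^ l) = (g * τ * g⁻¹) • b - b ^ l := by
        rw [smul_sub, smul_pow', smul_inv_smul, mul_smul, mul_smul]
      rw [h2] at h1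
      exact h1

end Pool.Agent.DK
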