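import Pool.Agent.Lib.DK.Iface

/-!
# Theorem DK: the interface of Part G (elliptic units and the measure), author helper21

Section 1: the statements on the values `etaM` which Part G needs (outputs of Parts C and F).
Section 2: the outputs of Part G. Nothing is proved here.
-/

set_option autoImplicit false

open scoped Pointwise Topology nonZeroDivisors
open Filter

noncomputable section

namespace Pool.Agent.DK

open Pool.Agent.MuZ Pool.Agent.FW NumberField IsDedekindDomain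
open Pool.Agent.DI (io ofC io_inj exists_io io_ofC ofC_io VP MP UP TP ex sqr sqr_sq kap)

/-! ## Definitions -/

/-- The level `D f² N m`. -/
def MM (k f : ℕ) (m : Ideal (OO k)) : ℕ := Dk k * f ^ 2 * NI m

/-- `η_χ(r) + η_χ(-r)`. -/
def etas {k : ℕ} (f : ℕ) (m : Ideal (OO k)) (R : Finset (Ideal (OO k))) (χ : Ideal (OO k) → Om)
    (r : ℚ) : Om :=
  etaX f m R χ r + etaX f m R χ (-r)

/-- `ha(r) = etas(r) + χ(𝔭̄) etas(2 r)`. -/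
def haX {k : ℕ} (f : ℕ) (m : Ideal (OO k)) (R : Finset (Ideal (OO k))) (χ : Ideal (OO k) → Om)
    (r : ℚ) : Om :=
  etas f m R χ r + χ (ppb k) * etas f m R χ (2 * r)

/-- A system of representatives `c` of `Cl(f) / H_f`, `N c = ± 1` modulo `2 ^ N` (`H_f` is the group of
the classes of the principal ideals `(v)`, `v` in `H_f`). -/
structure IsDS {k : ℕ} (f N : ℕ) (D : Finset (Ideal (OO k))) : Prop where
  mem : ∀ c ∈ D, c ≠ ⊥ ∧ PrI c (2 * f) ∧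
    ((2 : ℤ) ^ N ∣ (NI c : ℤ) - 1 ∨ (2 : ℤ) ^ N ∣ (NI c : ℤ) + 1)
  ex : ∀ b : Ideal (OO k), b ≠ ⊥ → PrI b f → ∃ c ∈ D, ∃ a : Ideal (OO k), HP f a ∧ Ray f b (a * c)
  uni : ∀ c ∈ D, ∀ c' ∈ D, (∃ a : Ideal (OO k), HP f a ∧ Ray f c' (a * c)) → c = c'

/-! ## 1. Inputs: the values of the smoothed theta series (Parts C, F)

`r` has a denominator prime to `MM k f m = D f² N m`. -/

/-- `etaM` depends only on the class of `b`. (Exact: `α b = α' b'`, `α = α'` modulo `f`; multiply by `β` with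
`α β = 1` modulo `f`; the series and the framing are both multiplied by `α β`.) -/
def S_K1 : Prop :=
  ∀ (k : ℕ) [SqK k] (f : ℕ) (m b b' : Ideal (OO k)), Odd f → 3 ≤ f → m ≠ ⊥ → PrI m 2 → PrI m f →
    b ≠ ⊥ → PrI b f → b' ≠ ⊥ → PrI b' f → Ray f b b' → ∀ r : ℚ, etaM f m b r = etaM f m b' r

open Classical in
/-- The values at `c / n`, `n` prime to `N m`, `b` prime to `f n` (then `(1 + f γ)/(f n)`, `γ` in `O / n`, are the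
`z` modulo `Lam b` with `n z = 1/f`). -/
def S_K2 : Prop :=
  ∀ (k : ℕ) [SqK k] (f : ℕ) (m b : Ideal (OO k)), Odd f → 3 ≤ f → m ≠ ⊥ → PrI m 2 → PrI m f →
    b ≠ ⊥ → ∀ (c : ℤ) (n : ℕ), 0 < n → n.Coprime (NI m) → PrI b (f * n) →
    io (etaM f m b (c / n)) = hM f m b (c / n) ∧
    etaM f m b (c / n) = (1 / n : Om) * ∑ x ∈ Finset.range n, ∑ y ∈ Finset.range n,
      zet n ^ (c * (NI m * NI b * Nm (⟨1 + f * x, f * y⟩ : OO k))) *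
        gO f m b (toC (⟨1 + f * x, f * y⟩ : OO k) / (f * n : ℕ))

/-- Hecke at `2`, modulo `2 V_P`. -/
def S_K3 : Prop :=
  ∀ (k : ℕ) [SqK k] (f : ℕ) (m : Ideal (OO k)), Odd f → 3 ≤ f → m ≠ ⊥ → PrI m 2 → PrI m f →
    ∀ (R : Finset (Ideal (OO k))) (χ : Ideal (OO k) → Om), IsRC f R → IsChi f χ →
    ∀ P : Ideal ZZ, AbP k P → ∀ r : ℚ, r.den.Coprime (MM k f m) →
      TP P 2 (etaX f m R χ (r / 2) + etaX f m R χ ((r + 1) / 2) + χ (sp 2) * etaX f m R χ (2 * r) -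
        χ (pp k) * etaX f m R χ r)

/-- Periodicity. -/
def S_K4 : Prop :=
  ∀ (k : ℕ) [SqK k] (f : ℕ) (m b : Ideal (OO k)), Odd f → 3 ≤ f → m ≠ ⊥ → PrI m 2 → PrI m f →
    b ≠ ⊥ → PrI b f → ∀ r : ℚ, etaM f m b (r + 1) = etaM f m b r

/-- Transformation under `Γ_0(D f² N m)`, modulo `P`. -/
def S_K5 : Prop :=
  ∀ (k : ℕ) [SqK k] (f : ℕ) (m : Ideal (OO k)), Odd f → 3 ≤ f → m ≠ ⊥ → PrI m 2 → PrI m f →
    ∀ (R : Finset (Ideal (OO k))) (χ : Ideal (OO k) → Om), IsRC f R → IsChi f χ →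
    ∀ P : Ideal ZZ, AbP k P → ∀ a b c d : ℤ, G0 (MM k f m) a b c d →
    ∀ r : ℚ, r.den.Coprime (MM k f m) →
      MP P (etaX f m R χ ((a * r + b) / (c * r + d)) - χ (sp (d : OO k)) * etaX f m R χ r -
        (etaX f m R χ (b / d) - χ (sp (d : OO k)) * etaX f m R χ 0))

/-- Integrality. -/
def S_K6 : Prop :=
  ∀ (k : ℕ) [SqK k] (f : ℕ) (m b : Ideal (OO k)), Odd f → 3 ≤ f → m ≠ ⊥ → PrI m 2 → PrI m f →
    b ≠ ⊥ → PrI b f → ∀ P : Ideal ZZ, Npr P → MP P 2 → ∀ r : ℚ, r.den.Coprime (MM k f m) →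
      VP P (etaM f m b r)

/-- **Proposition F.** -/
def S_KF : Prop :=
  ∀ (k : ℕ) [SqK k] (f : ℕ) (m : Ideal (OO k)), Odd f → 3 ≤ f → m ≠ ⊥ → m ≠ ⊤ → PrI m 2 → PrI m f →
    ∀ (R : Finset (Ideal (OO k))) (χ : Ideal (OO k) → Om), IsRC f R → IsChi f χ →
    ∀ P : Ideal ZZ, AbP k P → ∃ a b c d : ℤ, G0 (MM k f m) a b c d ∧ (MM k f m : ℤ) ∣ d - 1 ∧
      ¬ MP P (etaX f m R χ (b / d) + etaX f m R χ (-(b / d)) - 2 * etaX f m R χ 0)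

/-! ## 2. Outputs of Part G -/

/-- Representatives exist. -/
def S_GR : Prop :=
  ∀ (k : ℕ) [SqK k] (f N : ℕ), Odd f → 3 ≤ f →
    (∃ T : Finset (OO k), IsRep f N T) ∧ ∃ D : Finset (Ideal (OO k)), IsDS f N D

/-- The groups `HP`, `HPN`; the fields `L'`, `L'_n`, their Galois groups. -/
def S_GM : Prop :=
  ∀ (k : ℕ) [SqK k] (f : ℕ), Odd f → 3 ≤ f →
    (HP f (⊤ : Ideal (OO k)) ∧ (∀ a : Ideal (OO k), HP f a → a ≠ ⊥ ∧ PrI a f) ∧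
      (∀ a a' : Ideal (OO k), HP f a → Ray f a a' → HP f a') ∧
      ∀ a a' : Ideal (OO k), HP f a → HP f a' → HP f (a * a')) ∧
    (∀ N : ℕ, HPN f N (⊤ : Ideal (OO k)) ∧
      (∀ a : Ideal (OO k), HPN f N a → a ≠ ⊥ ∧ PrI a (f * 2 ^ N)) ∧
      (∀ a a' : Ideal (OO k), HPN f N a → Ray (f * 2 ^ N) a a' → HPN f N a') ∧
      (∀ a a' : Ideal (OO k), HPN f N a → HPN f N a' → HPN f N (a * a')) ∧
      ∀ a : Ideal (OO k), a ≠ ⊥ → PrI a (f * 2 ^ N) → (HPN f N a ↔ HP f a ∧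
        ((2 : ℤ) ^ N ∣ (NI a : ℤ) - 1 ∨ (2 : ℤ) ^ N ∣ (NI a : ℤ) + 1))) ∧
    FiniteDimensional ℚ (Mf k f) ∧ KQ k ≤ Mf k f ∧
    (∀ N : ℕ, FiniteDimensional ℚ (Mn k f N) ∧ Mf k f ≤ Mn k f N ∧ Mn k f N ≤ Mn k f (N + 1)) ∧
    (∀ τ ∈ GK k, ∀ a : Ideal (OO k), Psi τ f a → ((∀ x ∈ Mf k f, τ x = x) ↔ HP f a)) ∧
    (∀ (N : ℕ), ∀ τ ∈ GK k, ∀ a : Ideal (OO k), Psi τ (f * 2 ^ N) a →
      ((∀ x ∈ Mn k f N, τ x = x) ↔ HPN f N a)) ∧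
    ∀ (N : ℕ) (ζ : Om), IsPrimitiveRoot ζ (2 ^ N) → ∀ τ : Gal(Om/ℚ),
      (∀ x ∈ Mn k f N, τ x = x) ↔ (∀ x ∈ Mf k f, τ x = x) ∧ (τ ζ = ζ ∨ τ ζ = ζ⁻¹)

/-- **G3.** The elliptic units. -/
def S_G3 : Prop :=
  ∀ (k : ℕ) [SqK k] (f : ℕ) (m : Ideal (OO k)) (N : ℕ) (T : Finset (OO k)), Odd f → 3 ≤ f →
    m ≠ ⊥ → PrI m 2 → PrI m f → 2 ≤ N → IsRep f N T → ∀ b : Ideal (OO k), b ≠ ⊥ → PrI b (2 * f) →
      uN f N m T b ∈ Mn k f N ∧ uN f N m T b ≠ 0 ∧ (∀ Q : Ideal ZZ, Npr Q → UP Q (uN f N m T b)) ∧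
      (∀ b' : Ideal (OO k), Ray (f * 2 ^ N) b b' → uN f N m T b' = uN f N m T b) ∧
      (∀ a : Ideal (OO k), HPN f N a → uN f N m T (a * b) = uN f N m T b) ∧
      (∀ τ ∈ GK k, ∀ a : Ideal (OO k), Psi τ (f * 2 ^ N) a →
        τ (uN f N m T b) = uN f N m T (a * b)) ∧
      (∀ T' : Finset (OO k), IsRep f N T' → uN f N m T' b = uN f N m T b) ∧
      ∀ T' : Finset (OO k), IsRep f (N + 1) T' → ∀ s ∈ GK k, ∀ a : Ideal (OO k),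
        Psi s (f * 2 ^ (N + 1)) a → HPN f N a → ¬ HPN f (N + 1) a →
          uN f (N + 1) m T' b * s (uN f (N + 1) m T' b) = uN f N m T b

/-- **Output of Part G.** For all large `N`. -/
def S_G : Prop :=
  ∀ (k : ℕ) [SqK k] (f : ℕ) (m : Ideal (OO k)) (χ : Ideal (OO k) → Om) (P : Ideal ZZ), Odd f →
    3 ≤ f → m ≠ ⊥ → m ≠ ⊤ → PrI m 2 → PrI m f → IsChi f χ → AbP k P →
    ∃ N0 : ℕ, 3 ≤ N0 ∧ ∀ N : ℕ, N0 ≤ N → ∀ T : Finset (OO k), IsRep f N T →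
      ∀ D : Finset (Ideal (OO k)), IsDS f N D →
        ∃ d : Gal(Om/ℚ), (∀ x : ZZ, x ∈ P → d • x ∈ P) ∧ (∀ n : ℕ, ∀ x ∈ Mn k f n, d x = x) ∧
          (∀ i : Om, i ^ 2 = -1 → d i = i) ∧
          ¬ MP P (∑ c ∈ D, χ c * ((kap (uN f N m T c) d).val : Om))

end Pool.Agent.DK
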