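import Pool.Agent.Lib.DK.IfaceC

/-!
# Theorem DK: the interface of part F (non-constancy), helper36

Proofs: note F' of helper36. `S_F` is used by part G; the other statements are the proposed division of
part F: `S_F1`, `S_Lead`, `S_Psi` (helper79), `S_Kap`, `S_FH` (helper12). A false or awkward statement:
mail helper36 at once.
-/

set_option autoImplicit false

open scoped Pointwise Topology MatrixGroups
open Filter

noncomputable section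

namespace Pool.Agent.DK

open Pool.Agent.MuZ Pool.Agent.FW NumberField
open Pool.Agent.DI (io ofC io_inj exists_io io_ofC ofC_io VP MP UP TP ex sqr sqr_sq kap)

/-- **Proposition F.** For every character `χ` of odd order (also `χ = 1`) and every smoothing ideal
`m ≠ 1`: the function `η_χ(r) + η_χ(-r)` modulo `P` is not constant on the `Γ_1(M)`-orbit of `0`. -/
def S_F : Prop :=
  ∀ (k : ℕ) [SqK k] (f M : ℕ) (m : Ideal (OO k)) (R : Finset (Ideal (OO k))), FM f m → FR f R →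
    IsRC f R → IsLv f m R M → m ≠ ⊤ → ∀ χ : Ideal (OO k) → Om, IsChi f χ →
    ∀ P : Ideal ZZ, AbP k P → ∃ a b c d : ℤ, G0 M a b c d ∧ (M : ℤ) ∣ d - 1 ∧
      ¬ MP P (etaX f m R χ (b / d) + etaX f m R χ (-(b / d)) - 2 * etaX f m R χ 0)

/-! ## The ray class field modulo `f` -/

/-- The ray class field modulo `f`. -/
def Kf (k f : ℕ) : IntermediateField ℚ Om := FixI f (fun a : Ideal (OO k) => Ray f a ⊤)

/-- `σ b` acts as the ideal `b`. -/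
structure IsSig (k f : ℕ) (σ : Ideal (OO k) → Gal(Om/ℚ)) : Prop where
  mem : ∀ b : Ideal (OO k), FB f b → σ b ∈ GK k
  psi : ∀ b : Ideal (OO k), FB f b → Psi (σ b) f b

/-- Galois theory of `Kf`: normal over `ℚ`, the group is the ray class group, unramified at `2`,
Frobenius elements at the primes above `𝔭`. -/
def S_Kf : Prop :=
  ∀ (k : ℕ) [SqK k] (f : ℕ), Odd f → 3 ≤ f →
    FiniteDimensional ℚ (Kf k f) ∧ wO k ∈ Kf k f ∧ (∃ σ, IsSig k f σ) ∧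
    (∀ τ : Gal(Om/ℚ), ∀ x ∈ Kf k f, τ x ∈ Kf k f) ∧
    (∀ x : Om, (∀ τ ∈ GK k, τ x = x) → x ∈ KQ k) ∧
    (∀ τ ∈ GK k, ∀ τ' ∈ GK k, ∀ a a' : Ideal (OO k), Psi τ f a → Psi τ' f a' →
      ((∀ x ∈ Kf k f, τ x = τ' x) ↔ Ray f a a')) ∧
    (∀ P : Ideal ZZ, Npr P → MP P 2 → ∀ τ ∈ GK k, ∀ τ' ∈ GK k,
      (∀ x ∈ Kf k f, IsIntegral ℤ x → MP P (τ x - τ' x)) → ∀ x ∈ Kf k f, τ x = τ' x) ∧
    (∀ P : Ideal ZZ, Npr P → MP P 2 → ∀ x ∈ Kf k f, MP P x → VP P (x / 2)) ∧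
    (∀ P : Ideal ZZ, AbP k P → ∃ φ ∈ GK k, Fro P 2 φ) ∧
    ∀ c : Gal(Om/ℚ), (∀ x : Om, io (c x) = (starRingEnd ℂ) (io x)) → c * c = 1 ∧
      ∀ τ ∈ GK k, c * τ * c ∈ GK k ∧ ∀ (N : ℕ) (a : Ideal (OO k)), 0 < N → Psi τ N a →
        Psi (c * τ * c) N (cjI a)

/-! ## The functions `A`, `B` -/

/-- The function `A(z) = N0 ∑ σ_b(β) ThM f m b z`. -/
def AF {k : ℕ} (f : ℕ) (m : Ideal (OO k)) (R : Finset (Ideal (OO k)))
    (σ : Ideal (OO k) → Gal(Om/ℚ)) (N0 : ℕ) (β : Om) (z : ℂ) : ℂ :=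
  N0 * ∑ b ∈ R, io (σ b β) * ThM f m b z

/-- The coefficients of the `q`-expansion of `fr(1) A(z)`, in `Om`. -/
def aF {k : ℕ} (f : ℕ) (m : Ideal (OO k)) (R : Finset (Ideal (OO k)))
    (σ : Ideal (OO k) → Gal(Om/ℚ)) (N0 : ℕ) (β : Om) (n : ℕ) : Om :=
  N0 * ∑ b ∈ R, σ b β * rO f b ⊤ * ofC (cM f m b n)

/-- The power series `fr(1) A`. -/
def uF {k : ℕ} (f : ℕ) (m : Ideal (OO k)) (R : Finset (Ideal (OO k)))
    (σ : Ideal (OO k) → Gal(Om/ℚ)) (N0 : ℕ) (β : Om) : PowerSeries Om :=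
  PowerSeries.mk (aF f m R σ N0 β)

/-- **F1.** If Proposition F is false: there is `β` such that `A = AF f m R σ N0 β` and
`B = AF f (conj m) R σ N0 (c β)` have periods in `O`, of the same parity. -/
def S_F1 : Prop :=
  ∀ (k : ℕ) [SqK k] (f M : ℕ) (m : Ideal (OO k)) (R : Finset (Ideal (OO k))), FM f m → FR f R →
    IsRC f R → IsLv f m R M → ∀ χ : Ideal (OO k) → Om, IsChi f χ →
    ∀ P : Ideal ZZ, AbP k P → ∀ σ : Ideal (OO k) → Gal(Om/ℚ), IsSig k f σ →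
    (∀ a b c d : ℤ, G0 M a b c d → (M : ℤ) ∣ d - 1 →
      MP P (etaX f m R χ (b / d) + etaX f m R χ (-(b / d)) - 2 * etaX f m R χ 0)) →
    ∃ (N0 : ℕ) (β β' : Om), Odd N0 ∧ β ∈ Kf k f ∧ β' ∈ Kf k f ∧
      (∀ b1 ∈ R, Ray f (m * b1) ⊤ → UP P (σ b1 β)) ∧ (∀ τ ∈ GK k, UP P (τ β')) ∧
      (∀ τ ∈ GK k, VP P (τ β)) ∧
      ∀ a b c d : ℤ, G0 M a b c d → (M : ℤ) ∣ d - 1 → ∃ α α' : OO k,
        (α ∈ pp k ↔ α' ∈ ppb k) ∧ ∀ z : ℂ, 0 < z.im →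
          AF f m R σ N0 β ((a * z + b) / (c * z + d)) = AF f m R σ N0 β z + toC α ∧
          AF f (cjI m) R σ N0 β' ((a * z + b) / (c * z + d)) =
            AF f (cjI m) R σ N0 β' z + toC α'

/-- The coefficients: `u_0 = 0`, `u_1` is a unit. -/
def S_Lead : Prop :=
  ∀ (k : ℕ) [SqK k] (f : ℕ) (m : Ideal (OO k)) (R : Finset (Ideal (OO k))), FM f m → FR f R →
    IsRC f R → ∀ σ : Ideal (OO k) → Gal(Om/ℚ), IsSig k f σ → ∀ (N0 : ℕ) (β : Om), β ∈ Kf k f →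
      (∀ n : ℕ, aF f m R σ N0 β n ∈ Kf k f) ∧ aF f m R σ N0 β 0 = 0 ∧
      (∀ z : ℂ, 0 < z.im → HasSum (fun n : ℕ => io (aF f m R σ N0 β n) * ex z ^ n)
        (fr f (⊤ : Ideal (OO k)) * AF f m R σ N0 β z)) ∧
      (m ≠ ⊤ → ∀ P : Ideal ZZ, AbP k P → Odd N0 → (∀ b1 ∈ R, Ray f (m * b1) ⊤ → UP P (σ b1 β)) →
        UP P (aF f m R σ N0 β 1))

/-! ## The twisted model -/

/-- `ϰ = s²/fr²`. -/
def kO {k : ℕ} (f : ℕ) (b : Ideal (OO k)) : Om := ofC (s2 b / fr f b ^ 2)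

/-- `a₂ = (ϰ - 1)/4 + 4 𝒟 ϰ`. -/
def a2O {k : ℕ} (f : ℕ) (b : Ideal (OO k)) : Om := (kO f b - 1) / 4 + 4 * dO b * kO f b

/-- `a₄ = 𝒟 ϰ²`. -/
def a4O {k : ℕ} (f : ℕ) (b : Ideal (OO k)) : Om := dO b * kO f b ^ 2

/-- The relations between `u`, `T = T(u)`, `W = W(u)`: the curve `y² + xy = x³ + a₂ x² + a₄ x`,
`x = T/W`, `y = -1/W`, and `dx/(2y+x) = du`. -/
structure TWr {R : Type} [CommRing R] (a2 a4 : R) (u T W : PowerSeries R) : Prop where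
  curve : W = T ^ 3 + T * W + PowerSeries.C a2 * (T ^ 2 * W) + PowerSeries.C a4 * (T * W ^ 2)
  diff : PowerSeries.derivative R T * W - T * PowerSeries.derivative R W
    = (T - 2) * W * PowerSeries.derivative R u
  T0 : PowerSeries.coeff 0 T = 0
  T1 : PowerSeries.coeff 1 T = PowerSeries.coeff 1 u
  W0 : PowerSeries.coeff 0 W = 0
  W1 : PowerSeries.coeff 1 W = 0
  W2 : PowerSeries.coeff 2 W = 0
  W3 : PowerSeries.coeff 3 W = PowerSeries.coeff 1 u ^ 3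

/-- The number `ϰ`: field of definition, Galois action, `ϰ = 1` modulo `4`; the isogeny `𝔭`: the number
`e = 2 fr(1)/fr(𝔭)`, `(ϰ - 1)/4 = (e - 1)/2` modulo `2`. -/
def S_Kap : Prop :=
  ∀ (k : ℕ) [SqK k] (f : ℕ), Odd f → 3 ≤ f →
    (∀ b : Ideal (OO k), FB f b → io (kO f b) = s2 b / fr f b ^ 2 ∧ kO f b ∈ Kf k f ∧
      (∀ (τ : Gal(Om/ℚ)) (a : Ideal (OO k)), Psi τ f a → τ (kO f b) = kO f (a * b)) ∧
      ∀ P : Ideal ZZ, AbP k P → TP P 4 (kO f b - 1)) ∧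
    ∀ P : Ideal ZZ, AbP k P →
      TP P 2 (2 * rO f (pp k) ⊤ - 1) ∧
      TP P 2 ((kO f (⊤ : Ideal (OO k)) - 1) / 4 - (2 * rO f (pp k) ⊤ - 1) / 2) ∧
      kO f (pp k) * (1 + 4 * tO (pp k)) ^ 2 =
        (2 * rO f (pp k) ⊤) ^ 2 * kO f (⊤ : Ideal (OO k))

/-- **F2, F3.** The function `Ψ = G_S(A) H_T(B)` and its expansions. -/
def S_Psi : Prop :=
  ∀ (k : ℕ) [SqK k] (f M : ℕ) (m m' : Ideal (OO k)) (R : Finset (Ideal (OO k))), FM f m → FM f m' →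
    FR f R → IsRC f R → IsLv f m R M → IsLv f m' R M →
    ∀ σ : Ideal (OO k) → Gal(Om/ℚ), IsSig k f σ → ∀ (N0 : ℕ) (β β' : Om), β ∈ Kf k f →
    β' ∈ Kf k f → aF f m R σ N0 β 1 ≠ 0 → aF f m' R σ N0 β' 1 ≠ 0 →
    ∃ Ψ : ℂ → ℂ, (∀ z : ℂ, 0 < z.im → MeromorphicAt Ψ z) ∧
      (∀ z z' : ℂ, 0 < z.im → 0 < z'.im → ∀ α α' : OO k, (α ∈ pp k ↔ α' ∈ ppb k) →
        AF f m R σ N0 β z' = AF f m R σ N0 β z + toC α →
        AF f m' R σ N0 β' z' = AF f m' R σ N0 β' z + toC α' → Ψ z' = Ψ z) ∧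
      (∀ γ : SL(2, ℤ), ∃ (F : ℂ → ℂ) (Y : ℝ), MeromorphicAt F 0 ∧
        ∀ z : UpperHalfPlane, Y < z.im → Ψ ((γ • z : UpperHalfPlane) : ℂ) =
          F (Complex.exp (2 * Real.pi * Complex.I * (z : ℂ) / M))) ∧
      ∃ (TA WA TB WB ψ : PowerSeries Om) (Y : ℝ), (∀ n, PowerSeries.coeff n ψ ∈ Kf k f) ∧
        TWr (a2O f (⊤ : Ideal (OO k))) (a4O f (⊤ : Ideal (OO k))) (uF f m R σ N0 β) TA WA ∧
        TWr (a2O f (⊤ : Ideal (OO k))) (a4O f (⊤ : Ideal (OO k))) (uF f m' R σ N0 β') TB WB ∧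
        ψ ≠ 0 ∧ ψ ^ 2 * PowerSeries.C (kO f (⊤ : Ideal (OO k)) ^ 2) * WA * WB =
          PowerSeries.X ^ 4 * TA * (4 * TB + PowerSeries.C (kO f (⊤ : Ideal (OO k))) * WB) ∧
        ∀ z : ℂ, Y < z.im → HasSum (fun n : ℕ => io (PowerSeries.coeff n ψ) * ex z ^ n)
          (ex z ^ 2 * Ψ z)

/-- **F4 - F6.** The contradiction. -/
def S_FH : Prop :=
  ∀ (k : ℕ) [SqK k] (f : ℕ) (m m' : Ideal (OO k)) (R : Finset (Ideal (OO k))), FM f m → FM f m' →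
    FR f R → IsRC f R → ∀ P : Ideal ZZ, AbP k P → ∀ σ : Ideal (OO k) → Gal(Om/ℚ), IsSig k f σ →
    ∀ (N0 : ℕ) (β β' : Om), β ∈ Kf k f → β' ∈ Kf k f → (∀ τ ∈ GK k, VP P (τ β)) →
    (∀ τ ∈ GK k, VP P (τ β')) → UP P (aF f m R σ N0 β 1) → UP P (aF f m' R σ N0 β' 1) →
    ∀ TA WA TB WB ψ Q1 Q2 : PowerSeries Om,
      TWr (a2O f (⊤ : Ideal (OO k))) (a4O f (⊤ : Ideal (OO k))) (uF f m R σ N0 β) TA WA →
      TWr (a2O f (⊤ : Ideal (OO k))) (a4O f (⊤ : Ideal (OO k))) (uF f m' R σ N0 β') TB WB →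
      ψ ≠ 0 → ψ ^ 2 * PowerSeries.C (kO f (⊤ : Ideal (OO k)) ^ 2) * WA * WB =
        PowerSeries.X ^ 4 * TA * (4 * TB + PowerSeries.C (kO f (⊤ : Ideal (OO k))) * WB) →
      Q2 ≠ 0 → Q2 * ψ = Q1 → ∀ K' : IntermediateField ℚ Om, FiniteDimensional ℚ K' →
      (∀ n, PowerSeries.coeff n Q1 ∈ K') → (∀ n, PowerSeries.coeff n Q2 ∈ K') →
      (∀ n, VP P (PowerSeries.coeff n Q1)) → (∀ n, VP P (PowerSeries.coeff n Q2)) → False

end Pool.Agent.DK
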