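import Pool.Agent.Lib.DK.Iface

/-!
# Theorem DK: the interface of Part H (Thaine's argument) and Part I (descent)

`S_H` is proved by Part H (helper9, helper8) and used by Part I (helper55); `S_I` is the output of Part I for the
fields `L`. Nothing is proved here. Part H may add its own statements.
-/

set_option autoImplicit false

open scoped Pointwise Topology nonZeroDivisors
open Filter

noncomputable section

namespace Pool.Agent.DK

open Pool.Agent.MuZ Pool.Agent.FW NumberField IsDedekindDomain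
open Pool.Agent.DI (io ofC io_inj exists_io io_ofC ofC_io VP MP UP TP ex sqr sqr_sq kap)

/-! ## Part H (helper9, helper8) -/

/-- **Theorem H** (Thaine's argument for `p = 2`). `Sg` is a system of representatives in `G_K` of
`Gal(L'_n/K)`, `n = N - 2`. -/
def S_H : Prop :=
  ∀ (k : ℕ) [SqK k] (f : ℕ) (m : Ideal (OO k)) (N : ℕ) (T : Finset (OO k)), Odd f → 3 ≤ f →
    m ≠ ⊥ → PrI m 2 → PrI m f → 2 ≤ N → IsRep f N T → ∀ b : Ideal (OO k), b ≠ ⊥ → PrI b (2 * f) →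
    ∀ g ∈ VV 2 (Loc 2) (Mn k f N).fixingSubgroup,
    ∀ (P : Ideal ZZ) (d : Gal(Om/ℚ)), Npr P → MP P 2 → (∀ x : ZZ, x ∈ P → d • x ∈ P) →
      d ∈ (Mn k f N).fixingSubgroup → (∀ i : Om, i ^ 2 = -1 → d i = i) →
    ∀ Sg : Finset Gal(Om/ℚ), (∀ s ∈ Sg, s ∈ GK k) →
      (∀ τ ∈ GK k, ∃ s ∈ Sg, s⁻¹ * τ ∈ (Mn k f N).fixingSubgroup) →
      (∀ s ∈ Sg, ∀ s' ∈ Sg, s⁻¹ * s' ∈ (Mn k f N).fixingSubgroup → s = s') →
    ∀ τ ∈ (Mn k f N).fixingSubgroup,
      ∑ s ∈ Sg, kap (s⁻¹ (uN f N m T b)) d * g (s * τ * s⁻¹) = 0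

/-! ## Part I (helper55) -/

/-- The result for the fields `L`. -/
def S_I : Prop := ∀ (k : ℕ) [SqK k] (f : ℕ), Odd f → 3 ≤ f → XFinGen 2 (cyc 2 (Lf k f))

end Pool.Agent.DK
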