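import Pool.Agent.Lib.DK.Defs

/-!
# Theorem DK: the interface (parts 0, L, B, R, D, E)

Every `S_...` is a statement which is proved by ONE part and used by others. Nothing is proved here.
`k` with `SqK k`; `b`, `a`, `m` nonzero ideals of `O`; `Lam b = b⁻¹`. A false or awkward statement: mail
helper39 at once. Numbering as in DI where possible.
-/

set_option autoImplicit false

open scoped Pointwise Topology nonZeroDivisors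
open Filter

noncomputable section

namespace Pool.Agent.DK

open Pool.Agent.MuZ Pool.Agent.FW NumberField IsDedekindDomain
open Pool.Agent.DI (io ofC io_inj exists_io io_ofC ofC_io VP MP UP TP ex sqr sqr_sq kap)

/-! ## More definitions -/

/-- The image of `h`. -/
abbrev sp {k : ℕ} (v : OO k) : Ideal (OO k) := Ideal.span {v}

/-- The two orders of the primes above `2`. -/
def Pr2 {k : ℕ} (a b : Ideal (OO k)) : Prop := (a = pp k ∧ b = ppb k) ∨ (a = ppb k ∧ b = pp k)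

/-- The root of unity `exp(2 π i / n)` in `Om`. -/
def zet (n : ℕ) : Om := ofC (ex (1 / n))

/-- A complete system of representatives of `Lam (a b) / Lam b`. -/
structure IsSys {k : ℕ} (a b : Ideal (OO k)) (R : Finset ℂ) : Prop where
  mem : ∀ u ∈ R, u ∈ Lam (a * b)
  ex : ∀ z ∈ Lam (a * b), ∃ u ∈ R, z - u ∈ Lam b
  uni : ∀ u ∈ R, ∀ u' ∈ R, u - u' ∈ Lam b → u = u'

/-- A prime ideal of degree one with norm `l`. -/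
def Deg1 {k : ℕ} (q : Ideal (OO k)) (l : ℕ) : Prop := q.IsPrime ∧ q ≠ ⊥ ∧ l.Prime ∧ NI q = l

/-- The prime `Q` of `ZZ` is above the ideal `a` (`a ⊆ Q`). -/
def Abv {k : ℕ} (Q : Ideal ZZ) (a : Ideal (OO k)) : Prop := ∀ v ∈ a, MP Q (toO v)

/-- The kernel of reduction of `ℂ / Lam b` (model `X`), for the primes not above `𝔭̄`. -/
def IK {k : ℕ} (Q : Ideal ZZ) (b : Ideal (OO k)) (z : ℂ) : Prop :=
  Tor k z ∧ (z ∈ Lam b ∨ ¬ VP Q (xO b z))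

/-- `z` is `Q`-primary modulo `Lam b`. -/
def Qp {k : ℕ} (Q : Ideal ZZ) (b : Ideal (OO k)) (z : ℂ) : Prop :=
  ∀ α β : OO k, ¬ MP Q (toO α) → toC (α * β) * z ∈ Lam b → toC β * z ∈ Lam b

/-- `(a b; c d)` with determinant `1`, `c` divisible by `M`. -/
def G0 (M : ℤ) (a b c d : ℤ) : Prop := a * d - b * c = 1 ∧ M ∣ c

/-! ## Part 0: the ring `O` -/

/-- `O` is a Dedekind domain. -/
def S_O1 : Prop := ∀ (k : ℕ) [SqK k], IsDedekindDomain (OO k)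

/-- Multiplicativity of the norms. -/
def S_O2 : Prop :=
  ∀ (k : ℕ) [SqK k], (∀ v u : OO k, Nm (v * u) = Nm v * Nm u) ∧ (∀ v : OO k, 0 ≤ Nm v) ∧
    (∀ v : OO k, Nm v = 0 ↔ v = 0) ∧ (∀ v : OO k, (NI (sp v) : ℤ) = Nm v) ∧
    (∀ a b : Ideal (OO k), NI (a * b) = NI a * NI b) ∧ (∀ a : Ideal (OO k), NI a = 0 ↔ a = ⊥) ∧
    (∀ v : OO k, v * cjO v = (Nm v : OO k)) ∧
    ∀ v : OO k, toC (cjO v) = (starRingEnd ℂ) (toC v) ∧ ((Nm v : ℤ) : ℂ) = (‖toC v‖ : ℂ) ^ 2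

/-- Conjugate ideals. -/
def S_O3 : Prop :=
  ∀ (k : ℕ) [SqK k], (∀ (a : Ideal (OO k)) (v : OO k), v ∈ cjI a ↔ cjO v ∈ a) ∧
    (∀ a b : Ideal (OO k), cjI (a * b) = cjI a * cjI b) ∧
    (∀ a : Ideal (OO k), cjI (cjI a) = a ∧ NI (cjI a) = NI a ∧ a * cjI a = sp (NI a : OO k)) ∧
    (∀ v : OO k, cjI (sp v) = sp (cjO v)) ∧
    (∀ (a : Ideal (OO k)) (N : ℕ), PrI (cjI a) N ↔ PrI a N) ∧
    ∀ (N : ℕ) (a a' : Ideal (OO k)), Ray N a a' → Ray N (cjI a) (cjI a')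

/-- The primes above `2`. -/
def S_O4 : Prop :=
  ∀ (k : ℕ) [SqK k], pp k * ppb k = sp 2 ∧ cjI (pp k) = ppb k ∧ (pp k).IsPrime ∧ (ppb k).IsPrime ∧
    NI (pp k) = 2 ∧ NI (ppb k) = 2 ∧ pp k ⊔ ppb k = ⊤ ∧ pp k ≠ ⊥ ∧ ppb k ≠ ⊥ ∧
    (∀ v : OO k, v ∈ pp k ↔ (2 : ℤ) ∣ v.re) ∧ ∀ v : OO k, v ∈ ppb k ↔ (2 : ℤ) ∣ v.re + v.im

/-- A power of every ideal is principal. -/
def S_O5 : Prop :=
  ∀ (k : ℕ) [SqK k] (a : Ideal (OO k)), a ≠ ⊥ → ∃ (h : ℕ) (α : OO k), 0 < h ∧ α ≠ 0 ∧ a ^ h = sp α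

/-- Coprimality to an integer. -/
def S_O6 : Prop :=
  ∀ (k : ℕ) [SqK k], (∀ (N : ℕ) (a b : Ideal (OO k)), PrI (a * b) N ↔ PrI a N ∧ PrI b N) ∧
    (∀ (N N' : ℕ) (a : Ideal (OO k)), PrI a (N * N') ↔ PrI a N ∧ PrI a N') ∧
    (∀ (N : ℕ) (a : Ideal (OO k)), 0 < N → (PrI a N ↔ (NI a).Coprime N)) ∧
    (∀ (N : ℕ) (v : OO k), 0 < N → (PrI (sp v) N ↔ Cop v N)) ∧
    ∀ (N : ℕ) (a : Ideal (OO k)), 0 < N → a ≠ ⊥ → PrI a N →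
      ∃ v ∈ a, v ≠ 0 ∧ (N : OO k) ∣ v - 1

/-- The ray class relation. -/
def S_O7 : Prop :=
  ∀ (k : ℕ) [SqK k] (N : ℕ), 0 < N →
    (∀ a : Ideal (OO k), Ray N a a) ∧ (∀ a b : Ideal (OO k), Ray N a b → Ray N b a) ∧
    (∀ a b c : Ideal (OO k), Ray N a b → Ray N b c → Ray N a c) ∧
    (∀ a b c d : Ideal (OO k), Ray N a b → Ray N c d → Ray N (a * c) (b * d)) ∧
    (∀ a b c : Ideal (OO k), c ≠ ⊥ → PrI c N → Ray N (a * c) (b * c) → Ray N a b) ∧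
    (∀ a b : Ideal (OO k), Ray N a b → (a ≠ ⊥ ↔ b ≠ ⊥) ∧ (PrI a N ↔ PrI b N)) ∧
    (∀ (M : ℕ) (a b : Ideal (OO k)), M ∣ N → Ray N a b → Ray M a b) ∧
    (∀ v u : OO k, v ≠ 0 → u ≠ 0 → Cop v N → Cop u N →
      (Ray N (sp v) (sp u) ↔ (N : OO k) ∣ v - u ∨ (N : OO k) ∣ v + u)) ∧
    (∀ a : Ideal (OO k), a ≠ ⊥ → PrI a N → ∃ a' : Ideal (OO k), a' ≠ ⊥ ∧ PrI a' N ∧ Ray N (a * a') ⊤) ∧
    ∃ R : Finset (Ideal (OO k)), IsRC N R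

/-- Every class contains a product of prime ideals of degree one with large norms. `C` is closed under
products, and contains the classes of these prime ideals. -/
def S_O8 : Prop :=
  ∀ (k : ℕ) [SqK k] (N M : ℕ), 0 < N → 0 < M → ∀ C : Ideal (OO k) → Prop, C ⊤ →
    (∀ a b, C a → C b → C (a * b)) → (∀ (q : Ideal (OO k)) (l : ℕ), Deg1 q l → l.Coprime (N * M) → C q) →
    ∀ a : Ideal (OO k), a ≠ ⊥ → PrI a N → ∃ a' : Ideal (OO k), a' ≠ ⊥ ∧ PrI a' (N * M) ∧ C a' ∧ Ray N a a'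

/-- The norms modulo `N` of the ideals prime to `N`: they depend only on the class. -/
def S_O9 : Prop :=
  ∀ (k : ℕ) [SqK k] (N : ℕ), 0 < N → ∀ a a' : Ideal (OO k), PrI a N → PrI a' N → Ray N a a' →
    (N : ℤ) ∣ (NI a : ℤ) - NI a'

/-! ## Part L: lattices -/

/-- `Lam b` is a lattice. -/
def S_L1 : Prop :=
  ∀ (k : ℕ) [SqK k] (b : Ideal (OO k)), b ≠ ⊥ → ((LP b).lattice : Set ℂ) = Lam b

/-- Basic properties. -/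
def S_L2 : Prop :=
  ∀ (k : ℕ) [SqK k],
    (∀ b : Ideal (OO k), (0 : ℂ) ∈ Lam b ∧ (∀ z z' : ℂ, z ∈ Lam b → z' ∈ Lam b → z + z' ∈ Lam b) ∧
      (∀ z : ℂ, z ∈ Lam b → -z ∈ Lam b) ∧ ∀ (v : OO k) (z : ℂ), z ∈ Lam b → toC v * z ∈ Lam b) ∧
    (∀ (a b : Ideal (OO k)) (z : ℂ), z ∈ Lam (a * b) ↔ ∀ v ∈ a, toC v * z ∈ Lam b) ∧
    (∀ (a b : Ideal (OO k)) (z : ℂ), z ∈ Lam b → z ∈ Lam (a * b)) ∧
    (∀ (α : OO k) (b : Ideal (OO k)) (z : ℂ), z ∈ Lam (sp α * b) ↔ toC α * z ∈ Lam b) ∧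
    (∀ z : ℂ, z ∈ Lam (⊤ : Ideal (OO k)) ↔ ∃ v : OO k, z = toC v) ∧
    (∀ (b : Ideal (OO k)) (z : ℂ), b ≠ ⊥ → z ∈ Lam b → Tor k z) ∧
    (∀ (b : Ideal (OO k)) (z : ℂ), b ≠ ⊥ → (z ∈ Lam (cjI b) ↔ (starRingEnd ℂ) z ∈ Lam b)) ∧
    ∀ (b : Ideal (OO k)) (z : ℂ), b ≠ ⊥ → (Tor k z ↔ ∃ N : ℕ, 0 < N ∧ (N : ℂ) * z ∈ Lam b)

/-- `Lam (a b) / Lam b` is isomorphic to `O / a`. -/
def S_L3 : Prop :=
  ∀ (k : ℕ) [SqK k] (a b : Ideal (OO k)), a ≠ ⊥ → b ≠ ⊥ →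
    (∃ z ∈ Lam (a * b), ∀ a' : Ideal (OO k), a < a' → z ∉ Lam (a' * b)) ∧
    (∀ g ∈ Lam (a * b), (∀ a' : Ideal (OO k), a < a' → g ∉ Lam (a' * b)) →
      (∀ v : OO k, toC v * g ∈ Lam b ↔ v ∈ a) ∧ ∀ z ∈ Lam (a * b), ∃ v : OO k, z - toC v * g ∈ Lam b) ∧
    ∃ R : Finset ℂ, IsSys a b R ∧ R.card = NI a

/-- Annihilators; primary decomposition. -/
def S_L4 : Prop :=
  ∀ (k : ℕ) [SqK k] (b : Ideal (OO k)), b ≠ ⊥ →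
    (∀ z : ℂ, Tor k z → ∃ a : Ideal (OO k), a ≠ ⊥ ∧ z ∈ Lam (a * b) ∧
      ∀ v : OO k, toC v * z ∈ Lam b ↔ v ∈ a) ∧
    (∀ a a' : Ideal (OO k), a ≠ ⊥ → a' ≠ ⊥ → a ⊔ a' = ⊤ →
      (∀ z : ℂ, z ∈ Lam (a * b) → z ∈ Lam (a' * b) → z ∈ Lam b) ∧
      ∀ z ∈ Lam (a * a' * b), ∃ z' ∈ Lam (a * b), ∃ z'' ∈ Lam (a' * b), z = z' + z'')

/-- `N`-torsion of `ℂ / Lam b` and `ℂ / Lam (a b)`, `a` prime to `N`. -/
def S_L5 : Prop :=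
  ∀ (k : ℕ) [SqK k] (a b : Ideal (OO k)) (N : ℕ), a ≠ ⊥ → b ≠ ⊥ → 0 < N → PrI a N →
    (∀ z : ℂ, (N : ℂ) * z ∈ Lam b → z ∈ Lam (a * b) → z ∈ Lam b) ∧
    ∀ z : ℂ, (N : ℂ) * z ∈ Lam (a * b) → ∃ z' : ℂ, (N : ℂ) * z' ∈ Lam b ∧ z - z' ∈ Lam (a * b)

/-- The points `T`, `S`, `t` (note that `gen m b` has the property of `S_L3`). -/
def S_L6 : Prop :=
  ∀ (k : ℕ) [SqK k] (b : Ideal (OO k)), b ≠ ⊥ →
    (ptT b ∈ Lam (pp k * b) ∧ ptT b ∉ Lam b ∧ ∀ z ∈ Lam (pp k * b), z ∈ Lam b ∨ z - ptT b ∈ Lam b) ∧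
    (ptS b ∈ Lam (ppb k * b) ∧ ptS b ∉ Lam b ∧
      ∀ z ∈ Lam (ppb k * b), z ∈ Lam b ∨ z - ptS b ∈ Lam b) ∧
    (2 * ptT b ∈ Lam b ∧ 2 * ptS b ∈ Lam b ∧ ptS b + ptT b ∉ Lam b ∧ ptS b - ptT b ∉ Lam b ∧
      ∀ z : ℂ, 2 * z ∈ Lam b →
        z ∈ Lam b ∨ z - ptT b ∈ Lam b ∨ z - ptS b ∈ Lam b ∨ z - (ptS b + ptT b) ∈ Lam b) ∧
    (2 * ptt b - ptS b ∈ Lam b ∧ ptt b ∈ Lam (ppb k ^ 2 * b) ∧ ptt b ∉ Lam (ppb k * b) ∧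
      ptt b + ptS b + ptt b ∈ Lam b) ∧
    (ptT (ppb k * b) - ptT b ∈ Lam (ppb k * b) ∧ ptS (pp k * b) - ptS b ∈ Lam (pp k * b) ∧
      (ptS (ppb k * b) - ptt b ∈ Lam (ppb k * b)) ∧
      (ptt (pp k * b) - ptt b ∈ Lam (pp k * b) ∨ ptt (pp k * b) + ptt b ∈ Lam (pp k * b))) ∧
    (∀ a : Ideal (OO k), a ≠ ⊥ → PrI a 2 →
      ptT (a * b) - ptT b ∈ Lam (a * b) ∧ ptS (a * b) - ptS b ∈ Lam (a * b) ∧
      (ptt (a * b) - ptt b ∈ Lam (a * b) ∨ ptt (a * b) + ptt b ∈ Lam (a * b))) ∧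
    (starRingEnd ℂ) (ptT b) - ptS (cjI b) ∈ Lam (cjI b) ∧
    (starRingEnd ℂ) (ptS b) - ptT (cjI b) ∈ Lam (cjI b)

/-! ## Part B: elliptic functions over `ℂ` -/

/-- Periods, parity, values at lattice points (conventions of Mathlib). -/
def S_B1 : Prop :=
  ∀ (k : ℕ) [SqK k] (b : Ideal (OO k)), b ≠ ⊥ →
    (∀ z l : ℂ, l ∈ Lam b → wpC b (z + l) = wpC b z ∧ wdC b (z + l) = wdC b z ∧ XC b (z + l) = XC b z) ∧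
    (∀ z : ℂ, wpC b (-z) = wpC b z ∧ wdC b (-z) = -wdC b z ∧ XC b (-z) = XC b z) ∧
    s2 b ≠ 0 ∧ DC b ≠ 0 ∧ 1 - 16 * DC b ≠ 0 ∧
    (∀ z z' : ℂ, z ∉ Lam b → z' ∉ Lam b → (XC b z = XC b z' ↔ z - z' ∈ Lam b ∨ z + z' ∈ Lam b)) ∧
    (∀ z : ℂ, z ∉ Lam b → (wdC b z = 0 ↔ 2 * z ∈ Lam b)) ∧
    (∀ z : ℂ, wpC b z = s2 b * XC b z + wpC b (ptS b)) ∧
    (∀ z ∈ Lam b, XC b z = -(1 + 16 * DC b) / 12 ∧ wdC b z = 0) ∧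
    XC b (ptS b) = 0 ∧ XC b (ptT b) = -1 / 4 ∧ XC b (ptS b + ptT b) = -4 * DC b ∧
    ThC b ^ 2 = DC b

/-- The curve. -/
def S_B2 : Prop :=
  ∀ (k : ℕ) [SqK k] (b : Ideal (OO k)), b ≠ ⊥ → ∀ z : ℂ, z ∉ Lam b →
    wdC b z ^ 2 = s2 b ^ 3 * (XC b z * (XC b z + 4 * DC b) * (4 * XC b z + 1)) ∧
    AnalyticAt ℂ (XC b) z ∧ AnalyticAt ℂ (wdC b) z ∧ HasDerivAt (XC b) (wdC b z / s2 b) z ∧
    HasDerivAt (wdC b)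
      (s2 b ^ 2 * (6 * XC b z ^ 2 + (1 + 16 * DC b) * XC b z + 2 * DC b)) z

/-- The formulas of the Kummer line. -/
def S_B3 : Prop :=
  ∀ (k : ℕ) [SqK k] (b : Ideal (OO k)), b ≠ ⊥ →
    (∀ z z' : ℂ, z ∉ Lam b → z' ∉ Lam b → z + z' ∉ Lam b → z - z' ∉ Lam b →
      (XC b (z + z') + XC b (z - z')) * (XC b z - XC b z') ^ 2 =
        2 * XC b z * XC b z' * (XC b z + XC b z') + (1 + 16 * DC b) * XC b z * XC b z' +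
          2 * DC b * (XC b z + XC b z') ∧
      XC b (z + z') * XC b (z - z') * (XC b z - XC b z') ^ 2 = (XC b z * XC b z' - DC b) ^ 2 ∧
      s2 b ^ 3 * (XC b (z + z') - XC b (z - z')) * (XC b z - XC b z') ^ 2 = -(wdC b z * wdC b z')) ∧
    ∀ z : ℂ, 2 * z ∉ Lam b →
      XC b (2 * z) * (XC b z * (XC b z + 4 * DC b) * (4 * XC b z + 1)) = (XC b z ^ 2 - DC b) ^ 2

/-- Translation by the points of order two. -/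
def S_B4 : Prop :=
  ∀ (k : ℕ) [SqK k] (b : Ideal (OO k)), b ≠ ⊥ →
    (∀ z : ℂ, z ∉ Lam b → z + ptT b ∉ Lam b →
      4 * XC b z + 1 ≠ 0 ∧ XC b (z + ptT b) * (4 * XC b z + 1) = -(XC b z + 4 * DC b)) ∧
    ∀ z : ℂ, z ∉ Lam b → z + ptS b ∉ Lam b → XC b z ≠ 0 ∧ XC b (z + ptS b) * XC b z = DC b

/-- The isogeny `𝔭̄`. -/
def S_B5 : Prop :=
  ∀ (k : ℕ) [SqK k] (b : Ideal (OO k)), b ≠ ⊥ →
    1 + 4 * ThC b ≠ 0 ∧ DC (ppb k * b) * (1 + 4 * ThC b) ^ 2 = ThC b ∧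
    s2 (ppb k * b) = (1 + 4 * ThC b) ^ 2 * s2 b ∧
    ∀ z : ℂ, z ∉ Lam (ppb k * b) →
      XC (ppb k * b) z * ((1 + 4 * ThC b) ^ 2 * XC b z) = (XC b z - ThC b) ^ 2 ∧
      wdC (ppb k * b) z = wdC b z + wdC b (z + ptS b)

/-- The isogeny `𝔭`. -/
def S_B6 : Prop :=
  ∀ (k : ℕ) [SqK k] (b : Ideal (OO k)), b ≠ ⊥ →
    1 + 4 * ThC (pp k * b) ≠ 0 ∧ DC b * (1 + 4 * ThC (pp k * b)) ^ 2 = ThC (pp k * b) ∧
    (1 + 4 * ThC (pp k * b)) ^ 2 * s2 (pp k * b) = 4 * s2 b ∧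
    ∀ z : ℂ, z ∉ Lam (pp k * b) →
      XC (pp k * b) z * (4 * XC b z + 1) =
        (1 + 4 * ThC (pp k * b)) ^ 2 * (XC b z * (XC b z + 4 * DC b)) ∧
      wdC (pp k * b) z = wdC b z + wdC b (z + ptT b) ∧
      wdC (pp k * b) z * (4 * XC b z + 1) ^ 2 =
        8 * (2 * XC b z ^ 2 + XC b z + 2 * DC b) * wdC b z

/-- Homogeneity and conjugation. -/
def S_B7 : Prop :=
  ∀ (k : ℕ) [SqK k] (b : Ideal (OO k)), b ≠ ⊥ →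
    (∀ α : OO k, α ≠ 0 →
      (∀ z : ℂ, XC (sp α * b) z = XC b (toC α * z) ∧ wdC (sp α * b) z = toC α ^ 3 * wdC b (toC α * z) ∧
        KC (sp α * b) z = toC α * KC b (toC α * z)) ∧
      DC (sp α * b) = DC b ∧ ThC (sp α * b) = ThC b ∧ s2 (sp α * b) = toC α ^ 2 * s2 b) ∧
    (∀ z : ℂ, z ∉ Lam b → (starRingEnd ℂ) (XC b z) = -XC (cjI b) ((starRingEnd ℂ) z) - 1 / 4) ∧
    (∀ z : ℂ, (starRingEnd ℂ) (wdC b z) = wdC (cjI b) ((starRingEnd ℂ) z) ∧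
      (starRingEnd ℂ) (KC b z) = KC (cjI b) ((starRingEnd ℂ) z)) ∧
    (starRingEnd ℂ) (DC b) = (1 - 16 * DC (cjI b)) / 16 ∧ (starRingEnd ℂ) (s2 b) = -s2 (cjI b)

open Classical in
/-- Isogenies of odd degree: the product formula. -/
def S_B8 : Prop :=
  ∀ (k : ℕ) [SqK k] (a b : Ideal (OO k)), a ≠ ⊥ → b ≠ ⊥ → PrI a 2 → ∀ R : Finset ℂ, IsSys a b R →
    ∀ T : ℂ, 2 * T ∈ Lam b → T ∉ Lam b →
      (∀ z : ℂ, z ∉ Lam (a * b) →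
        ∏ u ∈ R, (XC b (z + u) - XC b T) =
          s2 (a * b) / s2 b * (∏ u ∈ R, (if u ∈ Lam b then 1 else XC b u - XC b T)) *
            (XC (a * b) z - XC (a * b) T)) ∧
      ∀ u ∈ R, u ∉ Lam b → XC b u ≠ XC b T

/-- Isogenies: the sum formulas. -/
def S_B9 : Prop :=
  ∀ (k : ℕ) [SqK k] (a b : Ideal (OO k)), a ≠ ⊥ → b ≠ ⊥ → ∀ R : Finset ℂ, IsSys a b R →
    (∀ z z' : ℂ, z ∉ Lam (a * b) → z' ∉ Lam (a * b) →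
      s2 (a * b) * (XC (a * b) z - XC (a * b) z') = s2 b * ∑ u ∈ R, (XC b (z + u) - XC b (z' + u))) ∧
    (∀ z : ℂ, z ∉ Lam (a * b) → wdC (a * b) z = ∑ u ∈ R, wdC b (z + u)) ∧
    (∀ z : ℂ, z ∉ Lam (a * b) → KC (a * b) z = ∑ u ∈ R, KC b (z + u))

/-- The function `K`: limit, periods, parity, second difference. -/
def S_B10 : Prop :=
  ∀ (k : ℕ) [SqK k] (b : Ideal (OO k)), b ≠ ⊥ →
    (∀ z : ℂ, z ∉ Lam b → Tendsto (fun t => KtC b t z) (𝓝[>] 0) (𝓝 (KC b z))) ∧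
    (∀ z l : ℂ, l ∈ Lam b → KC b (z + l) = KC b z) ∧ (∀ z : ℂ, KC b (-z) = -KC b z) ∧
    ∀ z u : ℂ, z ∉ Lam b → u ∉ Lam b → z + u ∉ Lam b → z - u ∉ Lam b →
      (KC b (z + u) + KC b (z - u) - 2 * KC b z) * (s2 b * (XC b z - XC b u)) = wdC b z

/-- The smoothed function `g`. -/
def S_B11 : Prop :=
  ∀ (k : ℕ) [SqK k] (f : ℕ) (m b : Ideal (OO k)), Odd f → 3 ≤ f → m ≠ ⊥ → b ≠ ⊥ → PrI m 2 →
    PrI b f → ∀ z : ℂ, z ∉ Lam (m * b) →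
      gC f m b z = ∑ u ∈ hs m b, wdC b z / (fr f b * s2 b * (XC b z - XC b u))

/-- The framing: values, homogeneity, conjugation. -/
def S_B12 : Prop :=
  ∀ (k : ℕ) [SqK k] (f : ℕ) (b : Ideal (OO k)), Odd f → 3 ≤ f → b ≠ ⊥ → PrI b f →
    wdC b (1 / f) ≠ 0 ∧
    fr f b * wdC b (1 / f) =
      s2 b ^ 2 * (6 * XC b (1 / f) ^ 2 + (1 + 16 * DC b) * XC b (1 / f) + 2 * DC b) ∧
    (∀ α : OO k, α ≠ 0 → (f : OO k) ∣ α - 1 → fr f (sp α * b) = toC α * fr f b) ∧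
    (∀ α : OO k, α ≠ 0 → (f : OO k) ∣ α + 1 → fr f (sp α * b) = -toC α * fr f b) ∧
    (starRingEnd ℂ) (fr f b) = fr f (cjI b)

/-- Injectivity of `𝒟` on the ideal classes. -/
def S_B13 : Prop :=
  ∀ (k : ℕ) [SqK k] (b b' : Ideal (OO k)), b ≠ ⊥ → b' ≠ ⊥ → DC b = DC b' →
    ∃ α α' : OO k, α ≠ 0 ∧ α' ≠ 0 ∧ sp α * b = sp α' * b'

/-- Half systems exist. -/
def S_B14 : Prop :=
  ∀ (k : ℕ) [SqK k] (m b : Ideal (OO k)), m ≠ ⊥ → b ≠ ⊥ → PrI m 2 →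
    IsHalf m b (hs m b) ∧ 2 * (hs m b).card + 1 = NI m

/-- The product over the points of order two. -/
def S_B15 : Prop :=
  ∀ (k : ℕ) [SqK k] (b : Ideal (OO k)), b ≠ ⊥ → ∀ u z : ℂ, 2 * u ∉ Lam b → 2 * z ∉ Lam b →
    (XC b z - XC b u) * (XC b (z + ptS b) - XC b u) * (XC b (z + ptT b) - XC b u) *
      (XC b (z + (ptS b + ptT b)) - XC b u) =
    -(XC b u * (XC b u + 4 * DC b) * (4 * XC b u + 1)) * (XC b (2 * z) - XC b (2 * u))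

/-- The divisor argument: products over `E[l]` of the functions `X(z) - X(u)`, `u` in `E[m]`. -/
def S_B16 : Prop :=
  ∀ (k : ℕ) [SqK k] (l m b : Ideal (OO k)), l ≠ ⊥ → m ≠ ⊥ → b ≠ ⊥ → PrI m 2 → l ⊔ m = ⊤ →
    ∀ R : Finset ℂ, IsSys l b R → ∃ c : ℂ, c ≠ 0 ∧ ∀ z : ℂ, z ∉ Lam (l * m * b) →
      ∏ v ∈ R, ∏ u ∈ hs m b, (XC b (z + v) - XC b u) =
        c * ∏ u ∈ hs m (l * b), (XC (l * b) z - XC (l * b) u)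

/-! ## Part R: the numbers `𝒟` (algebraicity, good reduction) -/

/-- `𝒟` is algebraic. -/
def S_R1 : Prop :=
  ∀ (k : ℕ) [SqK k] (b : Ideal (OO k)), b ≠ ⊥ → io (dO b) = DC b ∧ io (tO b) = ThC b

/-- `𝒟` is a unit at all primes not above `𝔭̄`. -/
def S_R2 : Prop :=
  ∀ (k : ℕ) [SqK k] (b : Ideal (OO k)), b ≠ ⊥ → ∀ Q : Ideal ZZ, Npr Q →
    (¬ MP Q 2 → UP Q (dO b) ∧ UP Q (1 - 16 * dO b) ∧ UP Q (tO b) ∧ UP Q (1 + 4 * tO b)) ∧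
    (AbP k Q → UP Q (dO b) ∧ UP Q (tO b) ∧ MP Q (tO (pp k * b) - dO b) ∧
      MP Q (dO (pp k * b) - dO b ^ 2)) ∧
    (AbPb k Q → UP Q ((1 - 16 * dO b) / 16))

/-- Injectivity modulo the primes above `𝔭`. -/
def S_R3 : Prop :=
  ∀ (k : ℕ) [SqK k] (b b' : Ideal (OO k)), b ≠ ⊥ → b' ≠ ⊥ → ∀ P : Ideal ZZ, AbP k P →
    MP P (dO b - dO b') → dO b = dO b'

/-- `X` is algebraic at torsion points; complex conjugation on `Om`. -/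
def S_R4 : Prop :=
  (∀ (k : ℕ) [SqK k] (b : Ideal (OO k)), b ≠ ⊥ → ∀ z : ℂ, Tor k z → io (xO b z) = XC b z) ∧
  ∃ c : Gal(Om/ℚ), (∀ x : Om, io (c x) = (starRingEnd ℂ) (io x)) ∧
    ∀ (k : ℕ) [SqK k] (b : Ideal (OO k)), b ≠ ⊥ →
      c (dO b) = (1 - 16 * dO (cjI b)) / 16 ∧
      (∀ z : ℂ, Tor k z → z ∉ Lam b → c (xO b z) = -xO (cjI b) ((starRingEnd ℂ) z) - 1 / 4) ∧
      (∀ P : Ideal ZZ, AbP k P → AbPb k (c • P)) ∧ ∀ P : Ideal ZZ, AbPb k P → AbP k (c • P)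

/-- The framing and `g` in `Om`. -/
def S_R5 : Prop :=
  ∀ (k : ℕ) [SqK k] (f : ℕ) (m b b' : Ideal (OO k)), Odd f → 3 ≤ f → m ≠ ⊥ → b ≠ ⊥ → b' ≠ ⊥ →
    PrI m 2 → PrI m f → PrI b f → PrI b' f → fr f b ≠ 0 ∧ io (rO f b b') = fr f b' / fr f b ∧
    ∀ z : ℂ, Tor k z → io (vO f b z) = wdC b z / fr f b ^ 3 ∧
      (z ∉ Lam (m * b) → io (gO f m b z) = gC f m b z)

/-! ## Part D: reduction -/

/-- All primes not above `𝔭̄`: the kernel of reduction. -/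
def S_D1 : Prop :=
  ∀ (k : ℕ) [SqK k] (b : Ideal (OO k)), b ≠ ⊥ → ∀ Q : Ideal ZZ, Npr Q → ¬ AbPb k Q →
    (∀ z z' : ℂ, IK Q b z → IK Q b z' → IK Q b (z + z')) ∧ (∀ z ∈ Lam b, IK Q b z) ∧
    (∀ (v : OO k) (z : ℂ), IK Q b z → IK Q b (toC v * z)) ∧
    (∀ (a : Ideal (OO k)) (z : ℂ), a ≠ ⊥ → IK Q b z → IK Q (a * b) z) ∧
    (∀ z : ℂ, IK Q b z → Qp Q b z) ∧
    (∀ z z' : ℂ, Tor k z → ¬ IK Q b z → IK Q b z' → MP Q (xO b (z + z') - xO b z)) ∧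
    (∀ z z' : ℂ, Tor k z → Tor k z' → ¬ IK Q b z → ¬ IK Q b z' → MP Q (xO b z - xO b z') →
      IK Q b (z + z') ∨ IK Q b (z - z'))

/-- Primes above `𝔭`: more. `W2` is a square of a unit `W = X` modulo `2`. -/
def S_D2 : Prop :=
  ∀ (k : ℕ) [SqK k] (b : Ideal (OO k)), b ≠ ⊥ → ∀ P : Ideal ZZ, AbP k P →
    IK P b (ptT b) ∧ ¬ IK P b (ptS b) ∧ ¬ IK P b (ptS b + ptT b) ∧
    (∀ z : ℂ, Tor k z → ¬ IK P b z → ¬ IK P (pp k * b) z ∧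
      MP P (xO (pp k * b) z - xO b z ^ 2)) ∧
    (∀ z : ℂ, Tor k z → ¬ IK P b z → ∃ y : Om, VP P y ∧
      y ^ 2 + xO b z * y = xO b z ^ 3 + 4 * dO b * xO b z ^ 2 + dO b * xO b z) ∧
    (∀ z : ℂ, Tor k z → ¬ Qp P b z → ¬ IK P b z ∧ VP P (xO b z)) ∧
    ∀ z : ℂ, Tor k z → ¬ Qp P b z → ¬ IK P b (z + ptS b) → UP P (xO b z)

/-- Primes above an odd prime ideal of degree one: Kronecker's congruence. -/
def S_D3 : Prop :=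
  ∀ (k : ℕ) [SqK k] (q : Ideal (OO k)) (l : ℕ), Deg1 q l → l ≠ 2 → ∀ Q : Ideal ZZ, Npr Q → Abv Q q →
    ∀ b : Ideal (OO k), b ≠ ⊥ →
      (∀ u ∈ Lam (q * b), IK Q b u) ∧ MP Q (dO (q * b) - dO b ^ l) ∧
      ∀ z : ℂ, Tor k z → ¬ IK Q b z → ¬ IK Q (q * b) z ∧ MP Q (xO (q * b) z - xO b z ^ l)

/-- The points of order `q` in the kernel have the same valuation (for the ramification of the auxiliary
field): for `u ∈ Lam (q b)`, `u ∉ Lam b`, `q = (la)` principal, `la X(u) ^ ((l - 1)/2)` is a unit. -/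
def S_D4 : Prop :=
  ∀ (k : ℕ) [SqK k] (la : OO k) (l : ℕ), Deg1 (sp la) l → l ≠ 2 → ∀ Q : Ideal ZZ, Npr Q →
    MP Q (toO la) → ∀ b : Ideal (OO k), b ≠ ⊥ → ∀ u : ℂ, toC la * u ∈ Lam b → u ∉ Lam b →
      UP Q (toO la * xO b u ^ ((l - 1) / 2))

/-- Theta units. -/
def S_D5 : Prop :=
  ∀ (k : ℕ) [SqK k] (m b : Ideal (OO k)), m ≠ ⊥ → b ≠ ⊥ → PrI m 2 → ∀ Q : Ideal ZZ, Npr Q →
    ∀ z : ℂ, Tor k z → (∀ u ∈ Lam (m * b), ¬ Qp Q b (z + u)) → UP Q (Theta m b z)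

/-- Theta units: congruences. -/
def S_D6 : Prop :=
  ∀ (k : ℕ) [SqK k] (m b : Ideal (OO k)), m ≠ ⊥ → b ≠ ⊥ → PrI m 2 → ∀ Q : Ideal ZZ, Npr Q →
    ¬ MP Q 2 → ¬ Abv Q m → ∀ z : ℂ, Tor k z → (∀ u ∈ Lam (m * b), ¬ Qp Q b (z + u)) →
    (∀ z' : ℂ, IK Q b z' → MP Q (Theta m b (z + z') - Theta m b z)) ∧
    ∀ (q : Ideal (OO k)) (l : ℕ), Deg1 q l → l ≠ 2 → Abv Q q →
      MP Q (Theta m (q * b) z - Theta m b z ^ l)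

/-- Distribution of `Theta`: exact for odd ideals, up to a sign for `2`. -/
def S_D7 : Prop :=
  ∀ (k : ℕ) [SqK k] (m b : Ideal (OO k)), m ≠ ⊥ → b ≠ ⊥ → PrI m 2 →
    (∀ (l : Ideal (OO k)) (R : Finset ℂ), l ≠ ⊥ → PrI l 2 → l ⊔ m = ⊤ → IsSys l b R →
      ∀ z : ℂ, Tor k z → z ∉ Lam (l * m * b) →
        ∏ v ∈ R, Theta m b (z + v) = Theta m (l * b) z) ∧
    ∃ s : ℤ, (s = 1 ∨ s = -1) ∧ ∀ R : Finset ℂ, IsSys (sp 2) b R → ∀ z : ℂ, Tor k z →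
      2 * z ∉ Lam (m * b) → ∏ v ∈ R, Theta m b (z + v) = s * Theta m b (2 * z)

/-- `Theta` is a well defined even function. -/
def S_D8 : Prop :=
  ∀ (k : ℕ) [SqK k] (m b : Ideal (OO k)), m ≠ ⊥ → b ≠ ⊥ → PrI m 2 →
    (∀ S : Finset ℂ, IsHalf m b S → ∀ z : ℂ,
      ∏ u ∈ S, (W2 b u * ((xO b z - xO b u) ^ 3)⁻¹) ^ 3 = Theta m b z) ∧
    (∀ z : ℂ, Theta m b (-z) = Theta m b z ∧ ∀ l ∈ Lam b, Theta m b (z + l) = Theta m b z) ∧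
    (∀ (α : OO k) (z : ℂ), α ≠ 0 → Theta m (sp α * b) z = Theta m b (toC α * z)) ∧
    ∀ z : ℂ, Tor k z → z ∉ Lam (m * b) → Theta m b z ≠ 0

/-- The framing and `g` at the primes above `2`. `s`: a square root of `s2`; the quotient `fr/s` is `±1`
modulo `2`; the étale isogenies. -/
def S_D9 : Prop :=
  ∀ (k : ℕ) [SqK k] (f : ℕ), Odd f → 3 ≤ f → ∀ P : Ideal ZZ, Npr P → MP P 2 →
    (∀ a b : Ideal (OO k), a ≠ ⊥ → b ≠ ⊥ → PrI a f → PrI b f →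
      ((AbP k P ∧ ¬ a ≤ pp k) ∨ (AbPb k P ∧ ¬ a ≤ ppb k)) → TP P 2 (rO f b (a * b) - 1) ∨
        TP P 2 (rO f b (a * b) + 1)) ∧
    (∀ b : Ideal (OO k), b ≠ ⊥ → PrI b f →
      (AbP k P → TP P 2 (rO f (pp k * b) b * 2 - 1) ∨ TP P 2 (rO f (pp k * b) b * 2 + 1)) ∧
      (AbPb k P → TP P 2 (rO f (ppb k * b) b * 2 - 1) ∨ TP P 2 (rO f (ppb k * b) b * 2 + 1))) ∧
    ∀ m b : Ideal (OO k), m ≠ ⊥ → b ≠ ⊥ → PrI m 2 → PrI m f → PrI b f → ∀ z : ℂ, Tor k z →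
      (∀ u ∈ Lam (m * b), ¬ Qp P b (z + u)) →
      VP P (gO f m b z) ∧ (AbP k P → TP P 2 (gO f m b z -
        ∑ u ∈ hs m b, xO b z * (xO b z - xO b u)⁻¹))

/-! ## Part E: Galois action -/

/-- The main theorem of complex multiplication, for `Gal(Om/K)`. -/
def S_E1 : Prop :=
  ∀ (k : ℕ) [SqK k] (N : ℕ), 0 < N →
    (∀ τ ∈ GK k, ∃ a : Ideal (OO k), Psi τ N a) ∧
    (∀ (τ : Gal(Om/ℚ)) (a a' : Ideal (OO k)), Psi τ N a → Psi τ N a' → Ray N a a') ∧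
    (∀ (τ : Gal(Om/ℚ)) (a a' : Ideal (OO k)), Psi τ N a → Ray N a a' → Psi τ N a') ∧
    (∀ (τ τ' : Gal(Om/ℚ)) (a a' : Ideal (OO k)), Psi τ N a → Psi τ' N a' → Psi (τ * τ') N (a * a')) ∧
    ∀ (τ : Gal(Om/ℚ)) (M : ℕ) (a : Ideal (OO k)), Psi τ N a → M ∣ N → Psi τ M a

/-- Frobenius elements, almost all odd degree one primes. -/
def S_E2 : Prop :=
  ∀ (k : ℕ) [SqK k] (N : ℕ), 0 < N → ∃ B : ℕ, 0 < B ∧ ∀ (q : Ideal (OO k)) (l : ℕ), Deg1 q l →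
    l.Coprime B → ∀ Q : Ideal ZZ, Npr Q → Abv Q q → ∀ τ ∈ GK k, Fro Q l τ → Psi τ N q

/-- Frobenius elements at the primes above `2`. -/
def S_E3 : Prop :=
  ∀ (k : ℕ) [SqK k] (P : Ideal ZZ) (τ : Gal(Om/ℚ)), τ ∈ GK k → Fro P 2 τ → ∀ N : ℕ, Odd N →
    (AbP k P → Psi τ N (pp k)) ∧ (AbPb k P → Psi τ N (ppb k))

/-- Inertia. -/
def S_E4 : Prop :=
  ∀ (k : ℕ) [SqK k] (Q : Ideal ZZ), Npr Q → ∀ τ ∈ GK k, τ ∈ Q.inertia Gal(Om/ℚ) →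
    (MP Q 2 → ∀ N : ℕ, Odd N → Psi τ N (⊤ : Ideal (OO k))) ∧
    ∀ (v : OO k) (b δ : Ideal (OO k)) (N : ℕ), 0 < N → b ≠ ⊥ → δ ≠ ⊥ → sp (N : OO k) ≤ δ →
      ¬ Abv Q δ → Psi τ N (sp v) → ∀ z ∈ Lam (δ * b), xO b (toC v * z) = xO b z

/-- The cyclotomic character. -/
def S_E6 : Prop :=
  ∀ (k : ℕ) [SqK k] (τ : Gal(Om/ℚ)) (N : ℕ) (a : Ideal (OO k)), τ ∈ GK k → 0 < N → Psi τ N a →
    ∀ ζ : Om, ζ ^ N = 1 → τ ζ = ζ ^ NI a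

/-- Surjectivity. -/
def S_E7 : Prop :=
  ∀ (k : ℕ) [SqK k] (N : ℕ) (a : Ideal (OO k)), 0 < N → a ≠ ⊥ → PrI a N → ∃ τ ∈ GK k, Psi τ N a

/-- Galois theory for `FixI`. -/
def S_E8 : Prop :=
  ∀ (k : ℕ) [SqK k] (N : ℕ) (H : Ideal (OO k) → Prop), 0 < N → H ⊤ →
    (∀ a, H a → a ≠ ⊥ ∧ PrI a N) → (∀ a a', H a → Ray N a a' → H a') →
    (∀ a a', H a → H a' → H (a * a')) →
    FiniteDimensional ℚ (FixI N H) ∧ KQ k ≤ FixI N H ∧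
    ∀ τ ∈ GK k, ∀ a : Ideal (OO k), Psi τ N a → ((∀ x ∈ FixI N H, τ x = x) ↔ H a)

/-- The fields are normal over `ℚ` and unramified at `2`; the numbers `𝒟(b)` and the odd torsion. -/
def S_E9 : Prop :=
  ∀ (k : ℕ) [SqK k] (f : ℕ), Odd f → 3 ≤ f →
    (∀ τ : Gal(Om/ℚ), ∀ x ∈ Mf k f, τ x ∈ Mf k f) ∧
    (∀ (N : ℕ) (τ : Gal(Om/ℚ)), ∀ x ∈ Mn k f N, τ x ∈ Mn k f N) ∧
    (∀ τ : Gal(Om/ℚ), ∀ x ∈ Lf k f, τ x ∈ Lf k f) ∧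
    (∀ (N : ℕ) (τ : Gal(Om/ℚ)), ∀ x ∈ Ln k f N, τ x ∈ Ln k f N) ∧
    (∀ P : Ideal ZZ, Npr P → MP P 2 → ∀ τ ∈ P.inertia Gal(Om/ℚ), ∀ x ∈ Mf k f, τ x = x) ∧
    (∀ P : Ideal ZZ, Npr P → MP P 2 → ∀ τ ∈ GK k, (∀ x ∈ Mf k f, VP P x → MP P (τ x - x)) →
      ∀ x ∈ Mf k f, τ x = x) ∧ Lf k f ≤ Mf k f ∧ ∀ N : ℕ, Ln k f N ≤ Mn k f N

/-- Galois action on the framing, on `g` and on `Theta`. -/
def S_E10 : Prop :=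
  ∀ (k : ℕ) [SqK k] (τ : Gal(Om/ℚ)) (N : ℕ) (a : Ideal (OO k)), 0 < N → Psi τ N a →
    (∀ b : Ideal (OO k), b ≠ ⊥ → τ (tO b) = tO (a * b)) ∧
    (∀ f : ℕ, Odd f → 3 ≤ f → f ∣ N →
      (∀ b c : Ideal (OO k), b ≠ ⊥ → PrI b f → c ≠ ⊥ → PrI c f →
        τ (rO f b c) = rO f (a * b) (a * c)) ∧
      (∀ b : Ideal (OO k), b ≠ ⊥ → PrI b f → ∀ z : ℂ, (N : ℂ) * z ∈ Lam b →
        τ (vO f b z) = vO f (a * b) z) ∧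
      ∀ m b : Ideal (OO k), m ≠ ⊥ → b ≠ ⊥ → PrI m 2 → PrI m f → PrI b f →
        NI m ∣ N → ∀ z : ℂ, (N : ℂ) * z ∈ Lam b → z ∉ Lam (m * b) →
          τ (gO f m b z) = gO f m (a * b) z) ∧
    ∀ m b : Ideal (OO k), m ≠ ⊥ → b ≠ ⊥ → PrI m 2 → NI m ∣ N → ∀ z : ℂ, (N : ℂ) * z ∈ Lam b →
      τ (Theta m b z) = Theta m (a * b) z

end Pool.Agent.DK
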